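import Pool.Agent.Helper18.BN.Reduce

/-!
Edge partitions into linear pieces.
-/

namespace BNTW

open Finset

variable {V E T : Type*} [Fintype E] [DecidableEq V] [DecidableEq E] [Fintype T]

omit [Fintype E] [DecidableEq V] in
lemma ply_union_le [Fintype E] (B1 B2 : Finset (E → ZMod 2)) (e : E) :
    ply (B1 ∪ B2) e ≤ ply B1 e + ply B2 e := by
  unfold ply
  rw [filter_union]
  exact card_union_le _ _

/-- **The partition theorem.** -/
theorem partition_bound [Fintype V] {κ : Type*} [DecidableEq κ] {p : T → T} {d : T → ℕ} {root : T}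
    {k : ℕ} {A : Finset E} {ends : E → V × V} {bag : T → Finset V}
    (h : IsRTD p d root bag ends A k) (X : Finset V) (c : E → κ) (labels : Finset κ) (τ : κ → ℕ)
    (hlab : ∀ e ∈ A, c e ∈ labels)
    (hL : ∀ v, v ∉ X → ∀ e ∈ A, ∀ f ∈ A, v ∈ endsSet ends e → v ∈ endsSet ends f → c e = c f)
    (hτ : ∀ l ∈ labels, (X.filter (fun v => ∃ e ∈ A, c e = l ∧ v ∈ endsSet ends e)).card ≤ τ l)
    (ord : E → ℕ) (hinj : Function.Injective ord) (s : ℕ)
    (hsep : ∀ e ∈ A, (sepSet ends (A.filter (fun f => c f = c e)) ord (ord e)).card ≤ s) :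
    Nice ends A (s - 1 + 1 + 2 * Lk k * Nat.clog 2 (6 * ∑ l ∈ labels, τ l + 1)) := by
  classical
  -- linear families
  have hfam : ∀ l : κ, ∃ B : Finset (E → ZMod 2), Spans ends (A.filter (fun f => c f = l)) B ∧
      ∀ e, ply B e ≤ s - 1 + 1 := by
    intro l
    apply linear_family ends ord hinj (A.filter (fun f => c f = l)) s
    intro e he
    rw [mem_filter] at he
    have := hsep e he.1
    rw [he.2] at this
    exact this
  choose Bf hBf hBfp using hfam
  obtain ⟨F, hFA, hFac, hFy⟩ := exists_forest ends A c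
  obtain ⟨B2, hB2, hB2p⟩ := branching_part X c labels τ F.card F ends bag rfl (h.mono hFA)
    (fun e he => hlab e (hFA he))
    (fun v hv e he f hf => hL v hv e (hFA he) f (hFA hf))
    (fun y l hy hyb => hFac y l hy hyb)
    (fun l hl => by
      refine le_trans (card_le_card ?_) (hτ l hl)
      intro u hu
      rw [mem_filter] at hu ⊢
      obtain ⟨hu1, g, hg, hg2⟩ := hu
      exact ⟨hu1, g, hFA hg, hg2⟩)
  set B1 : Finset (E → ZMod 2) := labels.biUnion Bf with hB1
  have hs1 : ∀ l ∈ labels, Submodule.span (ZMod 2) (Bf l : Set (E → ZMod 2)) ≤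
      Submodule.span (ZMod 2) ((B1 ∪ B2 : Finset (E → ZMod 2)) : Set (E → ZMod 2)) := by
    intro l hl
    apply Submodule.span_mono
    intro z hz
    rw [coe_union]
    left
    exact mem_coe.2 (mem_biUnion.2 ⟨l, hl, mem_coe.1 hz⟩)
  have hs2 : Submodule.span (ZMod 2) (B2 : Set (E → ZMod 2)) ≤
      Submodule.span (ZMod 2) ((B1 ∪ B2 : Finset (E → ZMod 2)) : Set (E → ZMod 2)) := by
    apply Submodule.span_mono
    rw [coe_union]
    exact Set.subset_union_right
  refine ⟨B1 ∪ B2, ⟨?_, ?_⟩, ?_⟩
  · intro z hz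
    rw [mem_union, hB1, mem_biUnion] at hz
    rcases hz with ⟨l, _, hz⟩ | hz
    · exact ⟨((hBf l).1 z hz).1.trans (filter_subset _ _), ((hBf l).1 z hz).2⟩
    · exact ⟨(hB2.1 z hz).1.trans hFA, (hB2.1 z hz).2⟩
  · intro z hzA hzb
    have hy' : ∀ e : E, ∃ y : E → ZMod 2, e ∈ A → e ∉ F → (∀ x, bd ends y x = 0) ∧ y e = 1 ∧
        supp y ⊆ insert e (F.filter (fun f => c f = c e)) := by
      intro e
      by_cases he : e ∈ A ∧ e ∉ F
      · obtain ⟨y, hy⟩ := hFy e he.1 he.2
        exact ⟨y, fun _ _ => hy⟩
      · exact ⟨0, fun h1 h2 => absurd ⟨h1, h2⟩ he⟩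
    choose y hy using hy'
    set D : Finset E := (A \ F).filter (fun e => z e ≠ 0) with hD
    have hDy : ∀ e ∈ D, (∀ x, bd ends (y e) x = 0) ∧ y e e = 1 ∧
        supp (y e) ⊆ insert e (F.filter (fun f => c f = c e)) ∧ e ∈ A ∧ e ∉ F := by
      intro e he
      rw [hD, mem_filter, mem_sdiff] at he
      have := hy e he.1.1 he.1.2
      exact ⟨this.1, this.2.1, this.2.2, he.1.1, he.1.2⟩
    have hyA : ∀ e ∈ D, supp (y e) ⊆ A.filter (fun f => c f = c e) := by
      intro e he
      obtain ⟨_, _, h3, h4, _⟩ := hDy e he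
      refine h3.trans ?_
      intro g hg
      rw [mem_insert, mem_filter] at hg
      rw [mem_filter]
      rcases hg with rfl | hg
      · exact ⟨h4, rfl⟩
      · exact ⟨hFA hg.1, hg.2⟩
    have hyspan : ∀ e ∈ D, y e ∈ Submodule.span (ZMod 2)
        ((B1 ∪ B2 : Finset (E → ZMod 2)) : Set (E → ZMod 2)) := by
      intro e he
      exact hs1 (c e) (hlab e (hDy e he).2.2.2.1) ((hBf (c e)).2 (y e) (hyA e he) (hDy e he).1)
    have hz' : z + ∑ e ∈ D, y e ∈ Submodule.span (ZMod 2) (B2 : Set (E → ZMod 2)) := by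
      apply hB2.2
      · intro g hg
        rw [mem_supp] at hg
        by_contra hgF
        apply hg
        rw [Pi.add_apply, Finset.sum_apply]
        have hsum : ∑ e ∈ D, y e g = if g ∈ D then 1 else 0 := by
          split_ifs with hgD
          · rw [sum_eq_single g]
            · exact (hDy g hgD).2.1
            · intro e he hne
              by_contra hne'
              have := (hDy e he).2.2.1 ((mem_supp (y e) g).2 hne')
              rw [mem_insert, mem_filter] at this
              rcases this with h1 | h1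
              · exact hne h1.symm
              · exact hgF h1.1
            · intro h1; exact absurd hgD h1
          · apply sum_eq_zero
            intro e he
            by_contra hne'
            have := (hDy e he).2.2.1 ((mem_supp (y e) g).2 hne')
            rw [mem_insert, mem_filter] at this
            rcases this with h1 | h1
            · exact hgD (h1 ▸ he)
            · exact hgF h1.1
        rw [hsum]
        by_cases hzg : z g = 0
        · have hgD : g ∉ D := by
            rw [hD, mem_filter]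
            intro h1
            exact h1.2 hzg
          rw [if_neg hgD, hzg, add_zero]
        · have hgD : g ∈ D := by
            rw [hD, mem_filter, mem_sdiff]
            exact ⟨⟨hzA ((mem_supp z g).2 hzg), hgF⟩, hzg⟩
          rw [if_pos hgD, (zmod2_cases (z g)).resolve_left hzg]
          decide
      · intro x
        rw [bd_add, bd_sum, hzb, zero_add]
        exact sum_eq_zero (fun e he => (hDy e he).1 x)
    have h6 : z = (z + ∑ e ∈ D, y e) - ∑ e ∈ D, y e := by simp
    rw [h6]
    exact Submodule.sub_mem _ (hs2 hz') (Submodule.sum_mem _ hyspan)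
  · intro e
    refine (ply_union_le B1 B2 e).trans (add_le_add ?_ (hB2p e))
    refine le_trans ?_ (hBfp (c e) e)
    unfold ply
    apply card_le_card
    intro z hz
    rw [mem_filter, hB1, mem_biUnion] at hz
    obtain ⟨⟨l, _, hz⟩, hze⟩ := hz
    rw [mem_filter]
    refine ⟨?_, hze⟩
    have h1 := ((hBf l).1 z hz).1 ((mem_supp z e).2 hze)
    rw [mem_filter] at h1
    rw [h1.2]
    exact hz

end BNTW
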