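import Pool.Agent.Helper18.BN.Suppress

/-!
Even sets along a linear order of the edges: a spanning family of small ply.
-/

namespace BNTW

open Finset

variable {V E : Type*} [Fintype E] [DecidableEq V] [DecidableEq E]

/-- Truncation of a vector to the positions at most `i`. -/
def trunc (ord : E → ℕ) (i : ℕ) (z : E → ZMod 2) : E → ZMod 2 :=
  fun e => if ord e ≤ i then z e else 0

/-- The end points of an edge. -/
def endsSet (ends : E → V × V) (e : E) : Finset V := {(ends e).1, (ends e).2}

/-- The vertices shared by the edges at positions at most `i` and the later ones. -/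
def sepSet (ends : E → V × V) (A : Finset E) (ord : E → ℕ) (i : ℕ) : Finset V :=
  ((A.filter (fun f => ord f ≤ i)).biUnion (endsSet ends)) ∩
    ((A.filter (fun f => i < ord f)).biUnion (endsSet ends))

/-- Members of the family crossing the position `i`. -/
def crossing (ord : E → ℕ) (B : Finset (E → ZMod 2)) (i : ℕ) : Finset (E → ZMod 2) :=
  B.filter (fun z => trunc ord i z ≠ 0 ∧ trunc ord i z ≠ z)

/-- The last position of the support. -/
def last (ord : E → ℕ) (z : E → ZMod 2) : ℕ := (supp z).sup ord

/-- A spanning family of even vectors. -/
def Spans (ends : E → V × V) (A : Finset E) (B : Finset (E → ZMod 2)) : Prop :=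
  (∀ z ∈ B, supp z ⊆ A ∧ ∀ x, bd ends z x = 0) ∧
  (∀ z, supp z ⊆ A → (∀ x, bd ends z x = 0) →
    z ∈ Submodule.span (ZMod 2) (B : Set (E → ZMod 2)))

lemma bd_sum {ι : Type*} (ends : E → V × V) (J : Finset ι) (f : ι → E → ZMod 2) (x : V) :
    bd ends (∑ j ∈ J, f j) x = ∑ j ∈ J, bd ends (f j) x := by
  classical
  induction J using Finset.induction_on with
  | empty => simp [bd_zero]
  | insert a s ha ih => rw [sum_insert ha, sum_insert ha, bd_add, ih]

lemma supp_eq_empty_iff (z : E → ZMod 2) : supp z = ∅ ↔ z = 0 := by
  constructor
  · intro h
    ext e
    by_contra hne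
    have : e ∈ supp z := (mem_supp z e).2 hne
    rw [h] at this
    exact absurd this (notMem_empty e)
  · rintro rfl
    ext e; simp [mem_supp]

lemma spans_insert {ends : E → V × V} {A : Finset E} {z0 : E → ZMod 2}
    (hz0A : supp z0 ⊆ A) (hz0b : ∀ x, bd ends z0 x = 0) {g : E} (hg : g ∈ supp z0)
    {B : Finset (E → ZMod 2)} (hB : Spans ends (A.erase g) B) :
    Spans ends A (insert z0 B) := by
  obtain ⟨h1, h2⟩ := hB
  have hg1 : z0 g = 1 := by
    rcases zmod2_cases (z0 g) with h | h
    · exact absurd h ((mem_supp z0 g).1 hg)
    · exact h
  refine ⟨?_, ?_⟩
  · intro z hz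
    rw [mem_insert] at hz
    rcases hz with rfl | hz
    · exact ⟨hz0A, hz0b⟩
    · exact ⟨(h1 z hz).1.trans (erase_subset _ _), (h1 z hz).2⟩
  · intro z hzA hzb
    have hsub : Submodule.span (ZMod 2) (B : Set (E → ZMod 2)) ≤
        Submodule.span (ZMod 2) ((insert z0 B : Finset (E → ZMod 2)) : Set (E → ZMod 2)) := by
      apply Submodule.span_mono
      rw [coe_insert]
      exact Set.subset_insert _ _
    have hz0m : z0 ∈ Submodule.span (ZMod 2)
        ((insert z0 B : Finset (E → ZMod 2)) : Set (E → ZMod 2)) := by
      apply Submodule.subset_span
      rw [coe_insert]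
      exact Set.mem_insert _ _
    have aux : ∀ y : E → ZMod 2, supp y ⊆ A → (∀ x, bd ends y x = 0) → y g = 0 →
        y ∈ Submodule.span (ZMod 2)
          ((insert z0 B : Finset (E → ZMod 2)) : Set (E → ZMod 2)) := by
      intro y hyA hyb hyg
      apply hsub
      apply h2 y _ hyb
      intro e he
      rw [mem_erase]
      refine ⟨?_, hyA he⟩
      rintro rfl
      rw [mem_supp] at he
      exact he hyg
    rcases zmod2_cases (z g) with h | h
    · exact aux z hzA hzb h
    · have h5 : z + z0 ∈ Submodule.span (ZMod 2)
          ((insert z0 B : Finset (E → ZMod 2)) : Set (E → ZMod 2)) := by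
        apply aux
        · exact (supp_add z z0).trans (union_subset hzA hz0A)
        · intro x
          rw [bd_add, hzb, hz0b, add_zero]
        · simp only [Pi.add_apply, h, hg1]
          decide
      have h6 : z = (z + z0) - z0 := by simp
      rw [h6]
      exact Submodule.sub_mem _ h5 hz0m

/-- **The oldest-first family.** -/
theorem oldest_first (ends : E → V × V) (ord : E → ℕ) (hinj : Function.Injective ord) :
    ∀ (n : ℕ) (A : Finset E), A.card = n →
      ∃ B : Finset (E → ZMod 2), Spans ends A B ∧
        (∀ i, ∀ J ⊆ crossing ord B i, J.Nonempty →
          ∃ x, bd ends (∑ z ∈ J, trunc ord i z) x ≠ 0) ∧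
        (∀ e, (B.filter (fun z => z e ≠ 0 ∧ trunc ord (ord e) z = z)).card ≤ 1) := by
  classical
  intro n
  induction n with
  | zero =>
    intro A hA
    rw [card_eq_zero] at hA
    subst hA
    refine ⟨∅, ⟨by simp, ?_⟩, ?_, by simp⟩
    · intro z hz _
      have : z = 0 := (supp_eq_empty_iff z).1 (subset_empty.1 hz)
      rw [this]
      exact Submodule.zero_mem _
    · intro i J hJ hne
      exfalso
      obtain ⟨z, hz⟩ := hne
      have := hJ hz
      simp [crossing] at this
  | succ n ih =>
    intro A hA
    -- the set of nonzero even vectors
    set Z : Finset (E → ZMod 2) := univ.filter (fun z => z ≠ 0 ∧ supp z ⊆ A ∧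
      ∀ x, bd ends z x = 0) with hZ
    by_cases hZe : Z = ∅
    · refine ⟨∅, ⟨by simp, ?_⟩, ?_, by simp⟩
      · intro z hz hzb
        have : z = 0 := by
          by_contra hne
          have : z ∈ Z := by rw [hZ, mem_filter]; exact ⟨mem_univ _, hne, hz, hzb⟩
          rw [hZe] at this
          exact absurd this (notMem_empty z)
        rw [this]
        exact Submodule.zero_mem _
      · intro i J hJ hne
        exfalso
        obtain ⟨z, hz⟩ := hne
        have := hJ hz
        simp [crossing] at this
    · obtain ⟨z0, hz0Z, hz0min⟩ := exists_min_image Z (last ord) (nonempty_iff_ne_empty.2 hZe)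
      have hz0' := hz0Z
      rw [hZ, mem_filter] at hz0'
      obtain ⟨_, hz0, hz0A, hz0b⟩ := hz0'
      have hne : (supp z0).Nonempty := by
        rw [nonempty_iff_ne_empty]
        intro h
        exact hz0 ((supp_eq_empty_iff z0).1 h)
      obtain ⟨g, hg, hgmin⟩ := exists_min_image (supp z0) ord hne
      have hg1 : z0 g = 1 := by
        rcases zmod2_cases (z0 g) with h | h
        · exact absurd h ((mem_supp z0 g).1 hg)
        · exact h
      obtain ⟨B, hBs, hBc, hBe⟩ := ih (A.erase g) (by rw [card_erase_of_mem (hz0A hg)]; omega)
      have hBg : ∀ z ∈ B, z g = 0 := by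
        intro z hz
        by_contra h
        exact (notMem_erase g A) ((hBs.1 z hz).1 ((mem_supp z g).2 h))
      -- minimality
      have hmin : ∀ y : E → ZMod 2, supp y ⊆ A → (∀ x, bd ends y x = 0) → y ≠ 0 →
          last ord z0 ≤ last ord y := by
        intro y hyA hyb hy
        exact hz0min y (by rw [hZ, mem_filter]; exact ⟨mem_univ _, hy, hyA, hyb⟩)
      refine ⟨insert z0 B, spans_insert hz0A hz0b hg hBs, ?_, ?_⟩
      · intro i J hJ hJne
        by_cases hzJ : z0 ∈ J
        · by_contra hcon
          push Not at hcon
          have hz0c : trunc ord i z0 ≠ 0 ∧ trunc ord i z0 ≠ z0 := by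
            have := hJ hzJ
            rw [crossing, mem_filter] at this
            exact this.2
          -- `ord g ≤ i`
          have hgi : ord g ≤ i := by
            by_contra hgi
            push Not at hgi
            apply hz0c.1
            ext e
            unfold trunc
            split_ifs with he
            · by_contra hne'
              have := hgmin e ((mem_supp z0 e).2 hne')
              omega
            · rfl
          -- `i < last z0`
          have hil : i < last ord z0 := by
            by_contra hil
            push Not at hil
            apply hz0c.2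
            ext e
            unfold trunc
            split_ifs with he
            · rfl
            · by_contra hne'
              have h1 : e ∈ supp z0 := (mem_supp z0 e).2 (fun h => hne' h.symm)
              have h2 : ord e ≤ last ord z0 := le_sup (f := ord) h1
              omega
          set y := ∑ z ∈ J, trunc ord i z with hy
          have hyA : supp y ⊆ A ∧ ∀ e ∈ supp y, ord e ≤ i := by
            have h1 : ∀ e, y e ≠ 0 → e ∈ A ∧ ord e ≤ i := by
              intro e he
              rw [hy, Finset.sum_apply] at he
              obtain ⟨z, hz, hze⟩ := exists_ne_zero_of_sum_ne_zero he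
              unfold trunc at hze
              split_ifs at hze with h2
              · refine ⟨?_, h2⟩
                have h3 := hJ hz
                rw [crossing, mem_filter, mem_insert] at h3
                rcases h3.1 with rfl | h3
                · exact hz0A ((mem_supp _ _).2 hze)
                · exact erase_subset _ _ ((hBs.1 z h3).1 ((mem_supp _ _).2 hze))
              · exact absurd rfl hze
            exact ⟨fun e he => (h1 e ((mem_supp _ _).1 he)).1,
              fun e he => (h1 e ((mem_supp _ _).1 he)).2⟩
          have hyg : y g = 1 := by
            rw [hy, Finset.sum_apply, sum_eq_single z0]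
            · unfold trunc
              rw [if_pos hgi, hg1]
            · intro z hz hzne
              have h3 := hJ hz
              rw [crossing, mem_filter, mem_insert] at h3
              rcases h3.1 with h4 | h4
              · exact absurd h4 hzne
              · unfold trunc
                rw [hBg z h4, ite_self]
            · intro h; exact absurd hzJ h
          have hy0 : y ≠ 0 := by
            intro h
            rw [h] at hyg
            exact absurd hyg (by simp)
          have h5 := hmin y hyA.1 hcon hy0
          have h6 : last ord y ≤ i := Finset.sup_le hyA.2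
          omega
        · apply hBc i J _ hJne
          intro z hz
          have h3 := hJ hz
          rw [crossing, mem_filter, mem_insert] at h3
          rw [crossing, mem_filter]
          refine ⟨?_, h3.2⟩
          rcases h3.1 with h4 | h4
          · exact absurd (h4 ▸ hz) hzJ
          · exact h4
      · intro e
        rw [filter_insert]
        by_cases hc : z0 e ≠ 0 ∧ trunc ord (ord e) z0 = z0
        · rw [if_pos hc]
          -- no member of `B` ends at `e`
          have hempty : B.filter (fun z => z e ≠ 0 ∧ trunc ord (ord e) z = z) = ∅ := by
            rw [filter_eq_empty_iff]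
            rintro z hz ⟨hze, hzt⟩
            have hlz0 : last ord z0 = ord e := by
              apply le_antisymm
              · apply Finset.sup_le
                intro f hf
                by_contra hlt
                rw [mem_supp] at hf
                apply hf
                rw [← hc.2]
                unfold trunc
                rw [if_neg hlt]
              · exact le_sup (f := ord) ((mem_supp _ _).2 hc.1)
            -- `z + z0` ends before `e`
            have hzA : supp z ⊆ A := (hBs.1 z hz).1.trans (erase_subset _ _)
            have h7 : z + z0 ≠ 0 := by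
              intro h
              have := congrFun h g
              rw [Pi.add_apply, hBg z hz, hg1] at this
              exact absurd this (by simp)
            have h8 := hmin (z + z0) ((supp_add z z0).trans (union_subset hzA hz0A))
              (by intro x; rw [bd_add, (hBs.1 z hz).2, hz0b, add_zero]) h7
            have h9 : ∀ f ∈ supp (z + z0), ord f < ord e := by
              intro f hf
              have hfle : ord f ≤ ord e := by
                by_contra hlt
                rw [mem_supp] at hf
                apply hf
                rw [Pi.add_apply, ← hc.2, ← hzt]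
                unfold trunc
                rw [if_neg hlt, if_neg hlt, add_zero]
              rcases Nat.lt_or_ge (ord f) (ord e) with h | h
              · exact h
              · exfalso
                have hfe : f = e := hinj (le_antisymm hfle h)
                rw [mem_supp] at hf
                apply hf
                rw [hfe, Pi.add_apply]
                have e1 : z e = 1 := (zmod2_cases (z e)).resolve_left hze
                have e2 : z0 e = 1 := (zmod2_cases (z0 e)).resolve_left hc.1
                rw [e1, e2]
                decide
            have hne2 : (supp (z + z0)).Nonempty := by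
              rw [nonempty_iff_ne_empty]
              intro h
              exact h7 ((supp_eq_empty_iff _).1 h)
            have h10 : last ord (z + z0) < ord e := by
              obtain ⟨f, hf⟩ := hne2
              have hpos : 0 < ord e := lt_of_le_of_lt (Nat.zero_le _) (h9 f hf)
              exact (Finset.sup_lt_iff hpos).2 h9
            omega
          rw [hempty]
          simp
        · rw [if_neg hc]
          exact hBe e

/-- Counting an independent family with even boundaries. -/
lemma card_le_of_indep {α : Type*} [DecidableEq α] (C : Finset α) (φ : α → V → ZMod 2)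
    (S : Finset V) (hS : ∀ z ∈ C, ∀ x, x ∉ S → φ z x = 0) (hsum : ∀ z ∈ C, ∑ x ∈ S, φ z x = 0)
    (hind : ∀ J ⊆ C, J.Nonempty → ∃ x, ∑ z ∈ J, φ z x ≠ 0) : C.card ≤ S.card - 1 := by
  classical
  rcases S.eq_empty_or_nonempty with rfl | ⟨x0, hx0⟩
  · have : C = ∅ := by
      by_contra hne
      obtain ⟨z, hz⟩ := nonempty_iff_ne_empty.2 hne
      obtain ⟨x, hx⟩ := hind {z} (singleton_subset_iff.2 hz) (singleton_nonempty z)
      rw [sum_singleton] at hx
      exact hx (hS z hz x (notMem_empty x))
    simp [this]
  · have hli : LinearIndependent (ZMod 2)
        (fun (z : C) => fun (x : (S.erase x0 : Finset V)) => φ z.1 x.1) := by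
      rw [Fintype.linearIndependent_iff]
      intro g hg z
      by_contra hne
      set J : Finset α := (univ.filter (fun z : C => g z ≠ 0)).map
        (Function.Embedding.subtype _) with hJ
      have hJC : J ⊆ C := by
        intro y hy
        rw [hJ, mem_map] at hy
        obtain ⟨y', _, rfl⟩ := hy
        exact y'.2
      have hJne : J.Nonempty := ⟨z.1, by
        rw [hJ, mem_map]
        exact ⟨z, mem_filter.2 ⟨mem_univ _, hne⟩, rfl⟩⟩
      obtain ⟨x, hx⟩ := hind J hJC hJne
      have hval : ∀ x, x ∈ S.erase x0 → ∑ z ∈ J, φ z x = 0 := by
        intro x hx
        have h1 := congrFun hg ⟨x, hx⟩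
        rw [Finset.sum_apply] at h1
        simp only [Pi.smul_apply, smul_eq_mul, Pi.zero_apply] at h1
        rw [hJ, sum_map]
        refine Eq.trans ?_ h1
        rw [sum_filter]
        apply sum_congr rfl
        intro y _
        split_ifs with h2
        · have : g y = 1 := (zmod2_cases (g y)).resolve_left h2
          rw [this, one_mul]
          rfl
        · push Not at h2
          rw [h2, zero_mul]
      by_cases hxS : x ∈ S
      · by_cases hx0' : x = x0
        · subst hx0'
          apply hx
          have h2 : ∑ z ∈ J, ∑ y ∈ S, φ z y = 0 :=
            sum_eq_zero (fun z hz => hsum z (hJC hz))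
          rw [sum_comm, ← add_sum_erase S _ hxS] at h2
          rw [sum_eq_zero hval, add_zero] at h2
          exact h2
        · exact hx (hval x (mem_erase.2 ⟨hx0', hxS⟩))
      · apply hx
        exact sum_eq_zero (fun z hz => hS z (hJC hz) x hxS)
    have h := hli.fintype_card_le_finrank
    rw [Module.finrank_fintype_fun_eq_card, Fintype.card_coe, Fintype.card_coe,
      card_erase_of_mem hx0] at h
    exact h

end BNTW
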