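import Pool.Agent.Helper18.BN.Linear

/-!
The ply bound for the oldest-first family, maximal forests in label classes, and the reduction
to the branching part.
-/

namespace BNTW

open Finset

variable {V E : Type*} [Fintype E] [DecidableEq V] [DecidableEq E]

omit [Fintype E] [DecidableEq E] in
lemma inc_eq_zero {ends : E → V × V} {e : E} {x : V} (h : x ∉ endsSet ends e) :
    inc ends e x = 0 := by
  unfold endsSet at h
  rw [mem_insert, mem_singleton, not_or] at h
  unfold inc
  rw [if_neg (fun h' => h.1 h'.symm), if_neg (fun h' => h.2 h'.symm), add_zero]

omit [Fintype E] [DecidableEq E] in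
lemma sum_inc [Fintype V] (ends : E → V × V) (e : E) : ∑ x, inc ends e x = 0 := by
  unfold inc
  rw [sum_add_distrib]
  simp
  decide

omit [DecidableEq E] in
lemma sum_bd [Fintype V] (ends : E → V × V) (y : E → ZMod 2) : ∑ x, bd ends y x = 0 := by
  unfold bd
  rw [sum_comm]
  apply sum_eq_zero
  intro e _
  rw [← mul_sum, sum_inc, mul_zero]

/-- **Linear families.** If the edges are linearly ordered so that at most `s` vertices are
shared by the initial and the final part at each edge, then there is a spanning family of even
vectors of ply at most `s` (at most `1` if `s = 0`). -/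
theorem linear_family [Fintype V] (ends : E → V × V) (ord : E → ℕ)
    (hinj : Function.Injective ord) (A : Finset E) (s : ℕ)
    (hsep : ∀ e ∈ A, (sepSet ends A ord (ord e)).card ≤ s) :
    ∃ B : Finset (E → ZMod 2), Spans ends A B ∧ ∀ e, ply B e ≤ s - 1 + 1 := by
  classical
  obtain ⟨B, hBs, hBc, hBe⟩ := oldest_first ends ord hinj A.card A rfl
  refine ⟨B, hBs, ?_⟩
  intro e
  by_cases heA : e ∈ A
  · set i := ord e with hi
    have hcr : (crossing ord B i).card ≤ s - 1 := by
      have h1 : (crossing ord B i).card ≤ (sepSet ends A ord i).card - 1 := by
        have hS : ∀ z ∈ crossing ord B i, ∀ x, x ∉ sepSet ends A ord i →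
            bd ends (trunc ord i z) x = 0 := by
          intro z hz x hx
          rw [crossing, mem_filter] at hz
          obtain ⟨hzA, hzb⟩ := hBs.1 z hz.1
          unfold sepSet at hx
          rw [mem_inter, not_and_or] at hx
          rcases hx with hx | hx
          · unfold bd
            apply sum_eq_zero
            intro f _
            by_cases h0 : trunc ord i z f = 0
            · rw [h0, zero_mul]
            · have h2 : ord f ≤ i ∧ z f ≠ 0 := by
                unfold trunc at h0
                split_ifs at h0 with h3
                · exact ⟨h3, h0⟩
                · exact absurd rfl h0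
              have h4 : f ∈ A := hzA ((mem_supp z f).2 h2.2)
              rw [inc_eq_zero, mul_zero]
              intro h5
              apply hx
              rw [mem_biUnion]
              exact ⟨f, mem_filter.2 ⟨h4, h2.1⟩, h5⟩
          · have h6 : bd ends (trunc ord i z) x = bd ends z x := by
              unfold bd
              apply sum_congr rfl
              intro f _
              by_cases h2 : ord f ≤ i
              · unfold trunc; rw [if_pos h2]
              · have h7 : z f * inc ends f x = 0 := by
                  by_cases h0 : z f = 0
                  · rw [h0, zero_mul]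
                  · have h4 : f ∈ A := hzA ((mem_supp z f).2 h0)
                    rw [inc_eq_zero, mul_zero]
                    intro h5
                    apply hx
                    rw [mem_biUnion]
                    exact ⟨f, mem_filter.2 ⟨h4, by omega⟩, h5⟩
                rw [h7]
                unfold trunc
                rw [if_neg h2, zero_mul]
            rw [h6]
            exact hzb x
        apply card_le_of_indep (crossing ord B i) (fun z x => bd ends (trunc ord i z) x)
          (sepSet ends A ord i) hS
        · intro z hz
          have h8 : ∑ x ∈ sepSet ends A ord i, bd ends (trunc ord i z) x =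
              ∑ x, bd ends (trunc ord i z) x := by
            apply sum_subset (subset_univ _)
            intro x _ hx
            exact hS z hz x hx
          rw [h8, sum_bd]
        · intro J hJ hne
          obtain ⟨x, hx⟩ := hBc i J hJ hne
          exact ⟨x, by rwa [bd_sum] at hx⟩
      have h9 : (sepSet ends A ord i).card ≤ s := hsep e heA
      omega
    unfold ply
    have hsub : B.filter (fun z => z e ≠ 0) ⊆ crossing ord B i ∪
        B.filter (fun z => z e ≠ 0 ∧ trunc ord (ord e) z = z) := by
      intro z hz
      rw [mem_filter] at hz
      rw [mem_union]
      by_cases ht : trunc ord i z = z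
      · right
        exact mem_filter.2 ⟨hz.1, hz.2, ht⟩
      · left
        rw [crossing, mem_filter]
        refine ⟨hz.1, ?_, ht⟩
        intro h0
        have := congrFun h0 e
        unfold trunc at this
        rw [if_pos le_rfl] at this
        exact hz.2 this
    calc (B.filter (fun z => z e ≠ 0)).card ≤ _ := card_le_card hsub
      _ ≤ (crossing ord B i).card +
        (B.filter (fun z => z e ≠ 0 ∧ trunc ord (ord e) z = z)).card := card_union_le _ _
      _ ≤ s - 1 + 1 := by
        have := hBe e
        omega
  · rw [ply_eq_zero (fun z hz => (hBs.1 z hz).1) heA]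
    omega

/-- **Maximal forests in label classes.** -/
theorem exists_forest {κ : Type*} [DecidableEq κ] (ends : E → V × V) (A : Finset E) (c : E → κ) :
    ∃ F ⊆ A, (∀ y : E → ZMod 2, ∀ l, supp y ⊆ F.filter (fun e => c e = l) →
        (∀ x, bd ends y x = 0) → y = 0) ∧
      ∀ e ∈ A, e ∉ F → ∃ y : E → ZMod 2, (∀ x, bd ends y x = 0) ∧ y e = 1 ∧
        supp y ⊆ insert e (F.filter (fun f => c f = c e)) := by
  classical
  set P : Finset (Finset E) := A.powerset.filter (fun F => ∀ y : E → ZMod 2, ∀ l,
    supp y ⊆ F.filter (fun e => c e = l) → (∀ x, bd ends y x = 0) → y = 0) with hP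
  have hPne : P.Nonempty := by
    refine ⟨∅, ?_⟩
    rw [hP, mem_filter, mem_powerset]
    refine ⟨empty_subset _, ?_⟩
    intro y l hy _
    rw [filter_empty] at hy
    exact (supp_eq_empty_iff y).1 (subset_empty.1 hy)
  obtain ⟨F, hF, hFmax⟩ := exists_max_image P Finset.card hPne
  rw [hP, mem_filter, mem_powerset] at hF
  refine ⟨F, hF.1, hF.2, ?_⟩
  intro e heA heF
  by_contra hcon
  push Not at hcon
  have hnew : insert e F ∈ P := by
    rw [hP, mem_filter, mem_powerset]
    refine ⟨insert_subset heA hF.1, ?_⟩
    intro y l hy hyb
    by_contra hy0
    by_cases hye : y e = 0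
    · apply hy0
      apply hF.2 y l _ hyb
      intro f hf
      have := hy hf
      rw [mem_filter, mem_insert] at this
      rw [mem_filter]
      refine ⟨?_, this.2⟩
      rcases this.1 with rfl | h
      · exact absurd hye ((mem_supp _ _).1 hf)
      · exact h
    · have hye1 : y e = 1 := (zmod2_cases (y e)).resolve_left hye
      have hl : c e = l := (mem_filter.1 (hy ((mem_supp y e).2 hye))).2
      apply hcon y hyb hye1
      intro f hf
      have := hy hf
      rw [mem_filter, mem_insert] at this
      rw [mem_insert, mem_filter]
      rcases this.1 with rfl | h
      · exact Or.inl rfl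
      · exact Or.inr ⟨h, by rw [this.2, hl]⟩
  have := hFmax _ hnew
  rw [card_insert_of_notMem heF] at this
  omega

end BNTW
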