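import Pool.Agent.Helper18.BN.Sep

/-!
The weighted removal argument.
-/

namespace BNTW

open Finset

variable {V E T : Type*} [Fintype E] [DecidableEq V] [DecidableEq E] [Fintype T]

/-- The number of members of the family using an edge. -/
def ply (B : Finset (E → ZMod 2)) (e : E) : ℕ := (B.filter (fun z => z e ≠ 0)).card

/-- The growth ratio. -/
noncomputable def rk (k : ℕ) : ℝ := 1 + 1 / (2 * (Lk k : ℝ))

lemma Lk_pos (k : ℕ) : (8 : ℝ) ≤ (Lk k : ℝ) := by
  have : 8 ≤ Lk k := by unfold Lk; omega
  exact_mod_cast this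

lemma one_le_rk (k : ℕ) : 1 ≤ rk k := by
  have := Lk_pos k
  unfold rk
  have : 0 ≤ 1 / (2 * (Lk k : ℝ)) := by positivity
  linarith

omit [Fintype T] in
/-- A good family for the multigraph `(ends, A)` with weights `w`. -/
def Good (ends : E → V × V) (A : Finset E) (k : ℕ) (w : E → ℝ)
    (B : Finset (E → ZMod 2)) : Prop :=
  (∀ z ∈ B, supp z ⊆ A ∧ ∀ x, bd ends z x = 0) ∧
  (∀ z, supp z ⊆ A → (∀ x, bd ends z x = 0) →
    z ∈ Submodule.span (ZMod 2) (B : Set (E → ZMod 2))) ∧
  ∑ e ∈ A, w e * rk k ^ (ply B e) ≤ 2 * ∑ e ∈ A, w e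

omit [Fintype E] in
lemma IsRTD.mono {p : T → T} {d : T → ℕ} {root : T} {bag : T → Finset V} {ends : E → V × V}
    {A A' : Finset E} {k : ℕ} (h : IsRTD p d root bag ends A k) (hA : A' ⊆ A) :
    IsRTD p d root bag ends A' k :=
  ⟨h.proot, h.rank, h.width, fun e he => h.cover e (hA he), h.conn⟩

lemma ply_eq_zero {B : Finset (E → ZMod 2)} {A : Finset E} {e : E}
    (hB : ∀ z ∈ B, supp z ⊆ A) (he : e ∉ A) : ply B e = 0 := by
  unfold ply
  rw [card_eq_zero, filter_eq_empty_iff]
  intro z hz hne
  exact he (hB z hz ((mem_supp z e).2 hne))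

lemma zmod2_cases (a : ZMod 2) : a = 0 ∨ a = 1 := by
  revert a; decide

/-- Deleting an edge in which every even vector vanishes. -/
lemma good_delete {ends : E → V × V} {A : Finset E} {k : ℕ} {w : E → ℝ} {e : E} (heA : e ∈ A)
    (hw : ∀ e, 0 ≤ w e)
    (hz : ∀ z, supp z ⊆ A → (∀ x, bd ends z x = 0) → z e = 0)
    {B : Finset (E → ZMod 2)} (hB : Good ends (A.erase e) k w B) : Good ends A k w B := by
  obtain ⟨h1, h2, h3⟩ := hB
  refine ⟨fun z hzB => ⟨(h1 z hzB).1.trans (erase_subset _ _), (h1 z hzB).2⟩, ?_, ?_⟩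
  · intro z hzA hzb
    apply h2 z _ hzb
    intro g hg
    rw [mem_erase]
    refine ⟨?_, hzA hg⟩
    rintro rfl
    rw [mem_supp] at hg
    exact hg (hz z hzA hzb)
  · rw [← add_sum_erase _ _ heA, ← add_sum_erase A w heA,
      ply_eq_zero (fun z hzB => (h1 z hzB).1) (notMem_erase e A)]
    have := hw e
    simp only [pow_zero, mul_one]
    linarith

/-- Removing the heaviest edge of a short even set. -/
lemma good_event {ends : E → V × V} {A : Finset E} {k : ℕ} {w : E → ℝ} (hw : ∀ e, 0 ≤ w e)
    (z0 : E → ZMod 2) (hz0A : supp z0 ⊆ A) (hz0b : ∀ x, bd ends z0 x = 0)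
    (hz0c : (supp z0).card ≤ Lk k) {g : E} (hg : g ∈ supp z0)
    (hgmax : ∀ e ∈ supp z0, w e ≤ w g)
    {B : Finset (E → ZMod 2)}
    (hB : Good ends (A.erase g) k (fun e => if e ∈ supp z0 then w e * rk k else w e) B) :
    Good ends A k w (insert z0 B) := by
  obtain ⟨h1, h2, h3⟩ := hB
  have hgA : g ∈ A := hz0A hg
  have hg1 : z0 g = 1 := by
    rcases zmod2_cases (z0 g) with h | h
    · exact absurd h ((mem_supp z0 g).1 hg)
    · exact h
  refine ⟨?_, ?_, ?_⟩
  · intro z hz
    rw [mem_insert] at hz
    rcases hz with rfl | hz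
    · exact ⟨hz0A, hz0b⟩
    · exact ⟨(h1 z hz).1.trans (erase_subset _ _), (h1 z hz).2⟩
  · intro z hzA hzb
    have hsub : Submodule.span (ZMod 2) (B : Set (E → ZMod 2)) ≤
        Submodule.span (ZMod 2) ((insert z0 B : Finset (E → ZMod 2)) : Set (E → ZMod 2)) := by
      apply Submodule.span_mono
      rw [coe_insert]
      exact Set.subset_insert _ _
    have hz0m : z0 ∈ Submodule.span (ZMod 2)
        ((insert z0 B : Finset (E → ZMod 2)) : Set (E → ZMod 2)) := by
      apply Submodule.subset_span
      rw [coe_insert]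
      exact Set.mem_insert _ _
    have aux : ∀ y : E → ZMod 2, supp y ⊆ A → (∀ x, bd ends y x = 0) → y g = 0 →
        y ∈ Submodule.span (ZMod 2)
          ((insert z0 B : Finset (E → ZMod 2)) : Set (E → ZMod 2)) := by
      intro y hyA hyb hyg
      apply hsub
      apply h2 y _ hyb
      intro e he
      rw [mem_erase]
      refine ⟨?_, hyA he⟩
      rintro rfl
      rw [mem_supp] at he
      exact he hyg
    rcases zmod2_cases (z g) with h | h
    · exact aux z hzA hzb h
    · have h5 : z + z0 ∈ Submodule.span (ZMod 2)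
          ((insert z0 B : Finset (E → ZMod 2)) : Set (E → ZMod 2)) := by
        apply aux
        · exact (supp_add z z0).trans (union_subset hzA hz0A)
        · intro x
          rw [bd_add, hzb, hz0b, add_zero]
        · simp only [Pi.add_apply, h, hg1]
          decide
      have h6 : z = (z + z0) - z0 := by simp
      rw [h6]
      exact Submodule.sub_mem _ h5 hz0m
  · have hL := Lk_pos k
    have hr1 := one_le_rk k
    -- ply bounds
    have hpg : ply (insert z0 B) g ≤ 1 := by
      unfold ply
      rw [filter_insert]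
      have h0 : (B.filter (fun z => z g ≠ 0)) = ∅ := by
        have := ply_eq_zero (e := g) (fun z hzB => (h1 z hzB).1) (notMem_erase g A)
        unfold ply at this
        rwa [card_eq_zero] at this
      rw [h0]
      split_ifs <;> simp
    have hp : ∀ e, ply (insert z0 B) e ≤ ply B e + (if e ∈ supp z0 then 1 else 0) := by
      intro e
      unfold ply
      rw [filter_insert]
      by_cases he : z0 e ≠ 0
      · have he' : e ∈ supp z0 := (mem_supp z0 e).2 he
        rw [if_pos he, if_pos he']
        exact card_insert_le _ _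
      · have he' : e ∉ supp z0 := fun h => he ((mem_supp z0 e).1 h)
        rw [if_neg he, if_neg he']
        simp
    have hterm : ∀ e ∈ A.erase g, w e * rk k ^ (ply (insert z0 B) e) ≤
        (if e ∈ supp z0 then w e * rk k else w e) * rk k ^ (ply B e) := by
      intro e _
      have h7 : rk k ^ (ply (insert z0 B) e) ≤
          rk k ^ (ply B e + (if e ∈ supp z0 then 1 else 0)) :=
        pow_le_pow_right₀ hr1 (hp e)
      have h8 := mul_le_mul_of_nonneg_left h7 (hw e)
      refine h8.trans (le_of_eq ?_)
      split_ifs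
      · rw [pow_succ]; ring
      · simp
    have hsum1 : ∑ e ∈ A.erase g, w e * rk k ^ (ply (insert z0 B) e) ≤
        2 * ∑ e ∈ A.erase g, (if e ∈ supp z0 then w e * rk k else w e) :=
      (sum_le_sum hterm).trans h3
    have hsum2 : ∑ e ∈ A.erase g, (if e ∈ supp z0 then w e * rk k else w e) ≤
        ∑ e ∈ A.erase g, w e + (1 / (2 * (Lk k : ℝ))) * (((Lk k : ℝ) - 1) * w g) := by
      have h9 : ∀ e, (if e ∈ supp z0 then w e * rk k else w e) =
          w e + (1 / (2 * (Lk k : ℝ))) * (if e ∈ supp z0 then w e else 0) := by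
        intro e
        split_ifs
        · unfold rk; ring
        · ring
      simp_rw [h9]
      rw [sum_add_distrib, ← mul_sum]
      have h10 : ∑ e ∈ A.erase g, (if e ∈ supp z0 then w e else 0) ≤
          ((Lk k : ℝ) - 1) * w g := by
        rw [← sum_filter]
        have h11 : (A.erase g).filter (fun e => e ∈ supp z0) ⊆ (supp z0).erase g := by
          intro e he
          rw [mem_filter, mem_erase] at he
          exact mem_erase.2 ⟨he.1.1, he.2⟩
        calc ∑ e ∈ (A.erase g).filter (fun e => e ∈ supp z0), w e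
            ≤ ∑ _e ∈ (A.erase g).filter (fun e => e ∈ supp z0), w g := by
              apply sum_le_sum
              intro e he
              exact hgmax e (mem_filter.1 he).2
          _ = (((A.erase g).filter (fun e => e ∈ supp z0)).card : ℝ) * w g := by
              rw [sum_const, nsmul_eq_mul]
          _ ≤ ((Lk k : ℝ) - 1) * w g := by
              apply mul_le_mul_of_nonneg_right _ (hw g)
              have h12 := card_le_card h11
              rw [card_erase_of_mem hg] at h12
              have h13 : 1 ≤ (supp z0).card := card_pos.2 ⟨g, hg⟩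
              have h14 : ((A.erase g).filter (fun e => e ∈ supp z0)).card + 1 ≤ Lk k := by omega
              have h15 : ((((A.erase g).filter (fun e => e ∈ supp z0)).card : ℝ)) + 1 ≤
                  (Lk k : ℝ) := by exact_mod_cast h14
              linarith
      have h16 : (0 : ℝ) ≤ 1 / (2 * (Lk k : ℝ)) := by positivity
      have := mul_le_mul_of_nonneg_left h10 h16
      linarith
    have hgterm : w g * rk k ^ (ply (insert z0 B) g) ≤ w g * rk k := by
      apply mul_le_mul_of_nonneg_left _ (hw g)
      calc rk k ^ (ply (insert z0 B) g) ≤ rk k ^ 1 := pow_le_pow_right₀ hr1 hpg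
        _ = rk k := pow_one _
    rw [← add_sum_erase _ _ hgA, ← add_sum_erase A w hgA]
    have hfin : w g * rk k + 2 * ((1 / (2 * (Lk k : ℝ))) * (((Lk k : ℝ) - 1) * w g)) ≤
        2 * w g := by
      have h17 : w g * rk k + 2 * ((1 / (2 * (Lk k : ℝ))) * (((Lk k : ℝ) - 1) * w g)) =
          w g * (2 - 1 / (2 * (Lk k : ℝ))) := by
        unfold rk
        field_simp
        ring
      rw [h17]
      have h18 : (0 : ℝ) ≤ 1 / (2 * (Lk k : ℝ)) := by positivity
      nlinarith [hw g]
    linarith

end BNTW
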