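import Pool.Agent.Helper18.BN.Linear2

/-!
The branching part: forests glued along few terminals.
-/

namespace BNTW

open Finset

variable {V E T : Type*} [Fintype E] [DecidableEq V] [DecidableEq E] [Fintype T]

/-- There is a spanning family of even vectors of ply at most `N`. -/
def Nice (ends : E → V × V) (A : Finset E) (N : ℕ) : Prop :=
  ∃ B : Finset (E → ZMod 2), Spans ends A B ∧ ∀ e, ply B e ≤ N

omit [DecidableEq V] in
lemma ply_image_ext_ne (B : Finset (E → ZMod 2)) {e f g : E} (hgf : g ≠ f) :
    ply (B.image (ext e f)) g ≤ ply B g := by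
  unfold ply
  calc ((B.image (ext e f)).filter (fun z => z g ≠ 0)).card
      ≤ ((B.filter (fun z => z g ≠ 0)).image (ext e f)).card := by
        apply card_le_card
        intro y hy
        rw [mem_filter, mem_image] at hy
        obtain ⟨⟨z, hz, rfl⟩, hy⟩ := hy
        rw [mem_image]
        exact ⟨z, mem_filter.2 ⟨hz, by rwa [ext_apply_ne e f z hgf] at hy⟩, rfl⟩
    _ ≤ _ := card_image_le

omit [DecidableEq V] in
lemma ply_image_ext_self (B : Finset (E → ZMod 2)) {e f : E} :
    ply (B.image (ext e f)) f ≤ ply B e := by
  unfold ply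
  calc ((B.image (ext e f)).filter (fun z => z f ≠ 0)).card
      ≤ ((B.filter (fun z => z e ≠ 0)).image (ext e f)).card := by
        apply card_le_card
        intro y hy
        rw [mem_filter, mem_image] at hy
        obtain ⟨⟨z, hz, rfl⟩, hy⟩ := hy
        rw [mem_image]
        exact ⟨z, mem_filter.2 ⟨hz, by rwa [ext_apply_self] at hy⟩, rfl⟩
    _ ≤ _ := card_image_le

lemma good_of_spans {ends : E → V × V} {A : Finset E} {B : Finset (E → ZMod 2)}
    (h : Spans ends A B) (k : ℕ) : Good ends A k (fun _ => 0) B :=
  ⟨h.1, h.2, by simp⟩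

lemma nice_suppress {ends : E → V × V} {A : Finset E} {N : ℕ}
    {e f : E} {v a b : V} (heA : e ∈ A) (hfA : f ∈ A) (hef : e ≠ f)
    (hje : Joins ends e v a) (hjf : Joins ends f v b) (hva : v ≠ a) (hvb : v ≠ b)
    (hstar : ∀ g ∈ A, g ≠ e → g ≠ f → (ends g).1 ≠ v ∧ (ends g).2 ≠ v)
    (h : Nice (newEnds ends e a b) (A.erase f) N) : Nice ends A N := by
  obtain ⟨B, hB, hp⟩ := h
  have h0 : Function.update (fun _ : E => (0 : ℝ)) e ((fun _ : E => (0 : ℝ)) e +
      (fun _ : E => (0 : ℝ)) f) = fun _ => 0 := by
    ext g
    by_cases hg : g = e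
    · subst hg; rw [Function.update_self]; simp
    · rw [Function.update_of_ne hg]
  have h1 := good_suppress (k := 0) (w := fun _ => (0 : ℝ)) (fun _ => le_rfl) heA hfA hef hje hjf
    hva hvb hstar (B := B) (by rw [h0]; exact good_of_spans hB 0)
  refine ⟨B.image (ext e f), ⟨h1.1, h1.2.1⟩, ?_⟩
  intro g
  by_cases hg : g = f
  · subst hg
    exact (ply_image_ext_self B).trans (hp e)
  · exact (ply_image_ext_ne B hg).trans (hp g)

lemma nice_delete {ends : E → V × V} {A : Finset E} {N : ℕ} {e : E}
    (hz : ∀ z, supp z ⊆ A → (∀ x, bd ends z x = 0) → z e = 0)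
    (h : Nice ends (A.erase e) N) : Nice ends A N := by
  obtain ⟨B, ⟨h1, h2⟩, hp⟩ := h
  refine ⟨B, ⟨fun z hzB => ⟨(h1 z hzB).1.trans (erase_subset _ _), (h1 z hzB).2⟩, ?_⟩, hp⟩
  intro z hzA hzb
  apply h2 z _ hzb
  intro g hg
  rw [mem_erase]
  refine ⟨?_, hzA hg⟩
  rintro rfl
  rw [mem_supp] at hg
  exact hg (hz z hzA hzb)

omit [Fintype E] [DecidableEq E] in
lemma mem_endsSet {ends : E → V × V} {e : E} {v : V} :
    v ∈ endsSet ends e ↔ (ends e).1 = v ∨ (ends e).2 = v := by
  unfold endsSet
  rw [mem_insert, mem_singleton]
  constructor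
  · rintro (h | h)
    · exact Or.inl h.symm
    · exact Or.inr h.symm
  · rintro (h | h)
    · exact Or.inl h.symm
    · exact Or.inr h.symm

lemma two_le_rk_pow (k : ℕ) : (2 : ℝ) ≤ rk k ^ (2 * Lk k) := by
  have hL := Lk_pos k
  have h1 : (-2 : ℝ) ≤ 1 / (2 * (Lk k : ℝ)) := by
    have : (0 : ℝ) ≤ 1 / (2 * (Lk k : ℝ)) := by positivity
    linarith
  have h2 := one_add_mul_le_pow h1 (2 * Lk k)
  have h3 : (1 : ℝ) + ((2 * Lk k : ℕ) : ℝ) * (1 / (2 * (Lk k : ℝ))) = 2 := by
    push_cast
    field_simp
    norm_num
  rw [h3] at h2
  exact h2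

lemma one_lt_rk (k : ℕ) : 1 < rk k := by
  have hL := Lk_pos k
  unfold rk
  have : 0 < 1 / (2 * (Lk k : ℝ)) := by positivity
  linarith

/-- From the weighted bound with unit weights to a bound on the ply. -/
lemma ply_of_good {ends : E → V × V} {A : Finset E} {k m : ℕ} {B : Finset (E → ZMod 2)}
    (h : Good ends A k (fun _ => 1) B) (hm : 2 * A.card ≤ m) (e : E) :
    ply B e ≤ 2 * Lk k * Nat.clog 2 (m + 1) := by
  obtain ⟨h1, _, h3⟩ := h
  by_cases heA : e ∈ A
  · have hr1 := one_le_rk k
    have h4 : rk k ^ (ply B e) ≤ (m : ℝ) := by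
      have h5 : (1 : ℝ) * rk k ^ (ply B e) ≤ ∑ f ∈ A, 1 * rk k ^ (ply B f) := by
        apply single_le_sum (f := fun f => 1 * rk k ^ (ply B f)) _ heA
        intro f _
        positivity
      have h6 : (2 : ℝ) * ∑ _f ∈ A, (1 : ℝ) ≤ (m : ℝ) := by
        rw [sum_const, nsmul_eq_mul, mul_one]
        exact_mod_cast hm
      linarith
    have h7 : (m : ℝ) < rk k ^ (2 * Lk k * Nat.clog 2 (m + 1)) := by
      have h8 : m + 1 ≤ 2 ^ Nat.clog 2 (m + 1) := Nat.le_pow_clog (by norm_num) _
      have h9 : ((m : ℝ) + 1) ≤ 2 ^ Nat.clog 2 (m + 1) := by exact_mod_cast h8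
      have h10 : (2 : ℝ) ^ Nat.clog 2 (m + 1) ≤ (rk k ^ (2 * Lk k)) ^ Nat.clog 2 (m + 1) :=
        pow_le_pow_left₀ (by norm_num) (two_le_rk_pow k) _
      rw [← pow_mul] at h10
      linarith
    have h11 : rk k ^ (ply B e) < rk k ^ (2 * Lk k * Nat.clog 2 (m + 1)) := lt_of_le_of_lt h4 h7
    exact ((pow_lt_pow_iff_right₀ (one_lt_rk k)).1 h11).le
  · rw [ply_eq_zero (fun z hz => (h1 z hz).1) heA]
    exact Nat.zero_le _

/-- **The branching part.** -/
theorem branching_part [Fintype V] {κ : Type*} [DecidableEq κ] {p : T → T} {d : T → ℕ} {root : T}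
    {k : ℕ} (X : Finset V) (c : E → κ) (labels : Finset κ) (τ : κ → ℕ) :
    ∀ (n : ℕ) (A : Finset E) (ends : E → V × V) (bag : T → Finset V), A.card = n →
      IsRTD p d root bag ends A k → (∀ e ∈ A, c e ∈ labels) →
      (∀ v, v ∉ X → ∀ e ∈ A, ∀ f ∈ A, v ∈ endsSet ends e → v ∈ endsSet ends f → c e = c f) →
      (∀ (y : E → ZMod 2) (l : κ), supp y ⊆ A.filter (fun e => c e = l) →
        (∀ x, bd ends y x = 0) → y = 0) →
      (∀ l ∈ labels, (X.filter (fun v => ∃ e ∈ A, c e = l ∧ v ∈ endsSet ends e)).card ≤ τ l) →
      Nice ends A (2 * Lk k * Nat.clog 2 (6 * ∑ l ∈ labels, τ l + 1)) := by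
  classical
  intro n
  induction n using Nat.strong_induction_on with
  | _ n ih =>
  intro A ends bag hA h hlab hL hF hτ
  -- no loops
  have hloop : ∀ e ∈ A, (ends e).1 ≠ (ends e).2 := by
    intro e he hl
    have h1 := hF (Pi.single e 1) (c e) (by
      intro f hf
      have := supp_single e hf
      rw [mem_singleton] at this
      subst this
      exact mem_filter.2 ⟨he, rfl⟩) (by
      intro x
      rw [bd_single]
      unfold inc
      rw [hl, zmod2_add_self])
    have := congrFun h1 e
    simp at this
  by_cases hred : ∃ v, v ∉ X ∧ (star ends A v).Nonempty ∧ (star ends A v).card < 3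
  · obtain ⟨v, hvX, hvne, hv3⟩ := hred
    have hjoin : ∀ e ∈ star ends A v, e ∈ A ∧ ∃ a, v ≠ a ∧ Joins ends e v a := by
      intro e he
      unfold star at he
      rw [mem_filter] at he
      refine ⟨he.1, ?_⟩
      have hl := hloop e he.1
      rcases he.2 with h1 | h1
      · exact ⟨(ends e).2, by rw [← h1]; exact hl, Or.inl ⟨h1, rfl⟩⟩
      · exact ⟨(ends e).1, by rw [← h1]; exact hl.symm, Or.inr ⟨rfl, h1⟩⟩
    have hcard : (star ends A v).card = 1 ∨ (star ends A v).card = 2 := by
      have := card_pos.2 hvne
      omega
    rcases hcard with hc | hc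
    · -- degree one
      obtain ⟨e, he⟩ := card_eq_one.1 hc
      have heS : e ∈ star ends A v := by rw [he]; simp
      obtain ⟨heA, a, hva, hje⟩ := hjoin e heS
      apply nice_delete (e := e)
      · intro z hzA hzb
        have h4 := hzb v
        unfold bd at h4
        rw [sum_eq_single e] at h4
        · rw [inc_of_joins hje] at h4
          simp only [if_true, if_neg (fun h' : a = v => hva h'.symm), add_zero, mul_one] at h4
          exact h4
        · intro g _ hge
          by_cases hgA : g ∈ A
          · have hgS : g ∉ star ends A v := by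
              rw [he, mem_singleton]; exact hge
            have hgn : ¬ ((ends g).1 = v ∨ (ends g).2 = v) := by
              intro hh
              exact hgS (mem_filter.2 ⟨hgA, hh⟩)
            rw [not_or] at hgn
            have : inc ends g v = 0 := by
              unfold inc
              rw [if_neg hgn.1, if_neg hgn.2, add_zero]
            rw [this, mul_zero]
          · have : z g = 0 := by
              by_contra hne
              exact hgA (hzA ((mem_supp z g).2 hne))
            rw [this, zero_mul]
        · intro h5
          exact absurd (mem_univ e) h5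
      · have hsub : A.erase e ⊆ A := erase_subset _ _
        have hlt : (A.erase e).card < n := by rw [← hA]; exact card_erase_lt_of_mem heA
        apply ih (A.erase e).card hlt (A.erase e) ends bag rfl (h.mono hsub)
        · intro f hf; exact hlab f (hsub hf)
        · intro u hu f hf g hg; exact hL u hu f (hsub hf) g (hsub hg)
        · intro y l hy hyb
          apply hF y l _ hyb
          intro f hf
          have := hy hf
          rw [mem_filter] at this ⊢
          exact ⟨hsub this.1, this.2⟩
        · intro l hl
          refine le_trans (card_le_card ?_) (hτ l hl)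
          intro u hu
          rw [mem_filter] at hu ⊢
          obtain ⟨hu1, g, hg, hg2⟩ := hu
          exact ⟨hu1, g, hsub hg, hg2⟩
    · -- degree two
      obtain ⟨e, f, hef, hef2⟩ := card_eq_two.1 hc
      have heS : e ∈ star ends A v := by rw [hef2]; simp
      have hfS : f ∈ star ends A v := by rw [hef2]; simp
      obtain ⟨heA, a, hva, hje⟩ := hjoin e heS
      obtain ⟨hfA, b, hvb, hjf⟩ := hjoin f hfS
      have hstar : ∀ g ∈ A, g ≠ e → g ≠ f → (ends g).1 ≠ v ∧ (ends g).2 ≠ v := by
        intro g hgA hge hgf
        have hgS : g ∉ star ends A v := by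
          rw [hef2, mem_insert, mem_singleton, not_or]
          exact ⟨hge, hgf⟩
        have hgn : ¬ ((ends g).1 = v ∨ (ends g).2 = v) := by
          intro hh
          exact hgS (mem_filter.2 ⟨hgA, hh⟩)
        rw [not_or] at hgn
        exact hgn
      have hve : v ∈ endsSet ends e := mem_endsSet.2 (mem_filter.1 heS).2
      have hvf : v ∈ endsSet ends f := mem_endsSet.2 (mem_filter.1 hfS).2
      have hcef : c e = c f := hL v hvX e heA f hfA hve hvf
      have hae : a ∈ endsSet ends e := by
        rw [mem_endsSet]
        rcases hje with ⟨_, h2⟩ | ⟨h1, _⟩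
        · exact Or.inr h2
        · exact Or.inl h1
      have hbf : b ∈ endsSet ends f := by
        rw [mem_endsSet]
        rcases hjf with ⟨_, h2⟩ | ⟨h1, _⟩
        · exact Or.inr h2
        · exact Or.inl h1
      -- witnesses in the old multigraph
      have hwit : ∀ g ∈ A.erase f, ∀ u, u ∈ endsSet (newEnds ends e a b) g →
          ∃ g' ∈ A, c g' = c g ∧ u ∈ endsSet ends g' := by
        intro g hg u hu
        rw [mem_erase] at hg
        by_cases hge : g = e
        · subst hge
          rw [mem_endsSet] at hu
          simp only [newEnds, Function.update_self] at hu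
          rcases hu with rfl | rfl
          · exact ⟨g, heA, rfl, hae⟩
          · exact ⟨f, hfA, hcef.symm, hbf⟩
        · refine ⟨g, hg.2, rfl, ?_⟩
          rw [mem_endsSet] at hu ⊢
          simp only [newEnds, Function.update_of_ne hge] at hu
          exact hu
      have hsub : A.erase f ⊆ A := erase_subset _ _
      have hlt : (A.erase f).card < n := by rw [← hA]; exact card_erase_lt_of_mem hfA
      apply nice_suppress heA hfA hef hje hjf hva hvb hstar
      apply ih (A.erase f).card hlt (A.erase f) (newEnds ends e a b) (newBag bag v a) rfl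
        (rtd_suppress h heA hfA hef hje hjf hva hvb hstar)
      · intro g hg; exact hlab g (hsub hg)
      · intro u hu g1 hg1 g2 hg2 h1 h2
        obtain ⟨g1', a1, a2, a3⟩ := hwit g1 hg1 u h1
        obtain ⟨g2', b1, b2, b3⟩ := hwit g2 hg2 u h2
        rw [← a2, ← b2]
        exact hL u hu g1' a1 g2' b1 a3 b3
      · intro y l hy hyb
        have hyf : y f = 0 := by
          by_contra hne
          have := hy ((mem_supp y f).2 hne)
          rw [mem_filter] at this
          exact notMem_erase f A this.1
        have hup : Function.update (ext e f y) f 0 = y := by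
          ext g
          by_cases hgf : g = f
          · subst hgf
            rw [Function.update_self, hyf]
          · rw [Function.update_of_ne hgf, ext_apply_ne e f y hgf]
        have h1 : ext e f y = 0 := by
          apply hF (ext e f y) l
          · intro g hg
            rw [mem_supp] at hg
            rw [mem_filter]
            by_cases hgf : g = f
            · subst hgf
              rw [ext_apply_self] at hg
              have := hy ((mem_supp y e).2 hg)
              rw [mem_filter] at this
              exact ⟨hfA, by rw [← hcef]; exact this.2⟩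
            · rw [ext_apply_ne e f y hgf] at hg
              have := hy ((mem_supp y g).2 hg)
              rw [mem_filter] at this
              exact ⟨hsub this.1, this.2⟩
          · intro x
            rw [bd_suppress hef hje hjf (ext e f y)
              (by rw [ext_apply_self, ext_apply_ne e f y hef]), hup]
            exact hyb x
        rw [← hup, h1]
        ext g
        by_cases hgf : g = f
        · subst hgf; rw [Function.update_self]; rfl
        · rw [Function.update_of_ne hgf]
      · intro l hl
        refine le_trans (card_le_card ?_) (hτ l hl)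
        intro u hu
        rw [mem_filter] at hu ⊢
        obtain ⟨hu1, g, hg, hg2, hg3⟩ := hu
        obtain ⟨g', a1, a2, a3⟩ := hwit g hg u hg3
        exact ⟨hu1, g', a1, by rw [a2]; exact hg2, a3⟩
  · push Not at hred
    -- counting
    have hcount : ∀ l ∈ labels, (A.filter (fun e => c e = l)).card ≤ 3 * τ l := by
      intro l hl
      set Al := A.filter (fun e => c e = l) with hAl
      set Vl := Al.biUnion (endsSet ends) with hVl
      have h1 : Al.card ≤ Vl.card - 1 := by
        apply card_le_of_indep Al (fun e x => inc ends e x) Vl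
        · intro e he x hx
          apply inc_eq_zero
          intro h2
          exact hx (mem_biUnion.2 ⟨e, he, h2⟩)
        · intro e he
          have h2 : ∑ x ∈ Vl, inc ends e x = ∑ x, inc ends e x := by
            apply sum_subset (subset_univ _)
            intro x _ hx
            apply inc_eq_zero
            intro h3
            exact hx (mem_biUnion.2 ⟨e, he, h3⟩)
          rw [h2, sum_inc]
        · intro J hJ hne
          by_contra hcon
          push Not at hcon
          have h2 := hF (fun e => if e ∈ J then 1 else 0) l (by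
            intro e he
            rw [mem_supp] at he
            split_ifs at he with h3
            · exact hJ h3
            · exact absurd rfl he) (by
            intro x
            refine Eq.trans ?_ (hcon x)
            unfold bd
            simp only [ite_mul, one_mul, zero_mul]
            rw [← sum_filter]
            congr 1
            ext e
            simp)
          obtain ⟨e, he⟩ := hne
          have h3 := congrFun h2 e
          simp [he] at h3
      have h2 : 3 * (Vl \ X).card ≤
          2 * (Al.filter (fun e => (ends e).1 ∈ Vl \ X ∨ (ends e).2 ∈ Vl \ X)).card := by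
        apply degree_count ends Al (Vl \ X)
        intro v hv
        rw [mem_sdiff, hVl, mem_biUnion] at hv
        obtain ⟨⟨e, he, hve⟩, hvX⟩ := hv
        rw [hAl, mem_filter] at he
        have h3 : star ends Al v = star ends A v := by
          ext g
          unfold star
          simp only [hAl, mem_filter]
          constructor
          · rintro ⟨⟨a1, _⟩, a3⟩; exact ⟨a1, a3⟩
          · rintro ⟨a1, a3⟩
            refine ⟨⟨a1, ?_⟩, a3⟩
            rw [← he.2]
            exact hL v hvX g a1 e he.1 (mem_endsSet.2 a3) hve
        rw [h3]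
        exact hred v hvX ⟨e, mem_filter.2 ⟨he.1, mem_endsSet.1 hve⟩⟩
      have h4 := card_filter_le Al (fun e => (ends e).1 ∈ Vl \ X ∨ (ends e).2 ∈ Vl \ X)
      have h5 : (Vl ∩ X).card ≤ τ l := by
        refine le_trans (card_le_card ?_) (hτ l hl)
        intro u hu
        rw [mem_inter, hVl, mem_biUnion] at hu
        obtain ⟨⟨e, he, hue⟩, huX⟩ := hu
        rw [hAl, mem_filter] at he
        rw [mem_filter]
        exact ⟨huX, e, he.1, he.2, hue⟩
      have h6 : Vl.card = (Vl \ X).card + (Vl ∩ X).card := by
        rw [card_sdiff_add_card_inter]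
      omega
    have hAcard : A.card ≤ 3 * ∑ l ∈ labels, τ l := by
      rw [card_eq_sum_card_fiberwise (f := c) (t := labels) (s := A) (by
        intro e he
        exact hlab e (by simpa using he)), mul_sum]
      exact sum_le_sum hcount
    obtain ⟨B, hB⟩ := main_induction A.card A ends bag (fun _ => (1 : ℝ)) rfl h
      (fun _ => zero_le_one)
    refine ⟨B, ⟨hB.1, hB.2.1⟩, ?_⟩
    intro e
    exact ply_of_good hB (by omega) e

end BNTW
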