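import Pool.Agent.Helper18.BN.Short

/-!
A dense piece of bounded size in a multigraph of minimum degree three and bounded treewidth.
-/

namespace BNTW

open Finset

variable {V E T : Type*} [Fintype E] [DecidableEq V] [DecidableEq E] [Fintype T]

/-- `t'` is a descendant of `t` for the parent map `p`. -/
def Desc (p : T → T) (t t' : T) : Prop := ∃ n : ℕ, p^[n] t' = t

omit [Fintype T] in
lemma Desc.refl (p : T → T) (t : T) : Desc p t t := ⟨0, rfl⟩

omit [Fintype T] in
lemma Desc.trans {p : T → T} {a b c : T} (h1 : Desc p a b) (h2 : Desc p b c) : Desc p a c := by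
  obtain ⟨n, hn⟩ := h1
  obtain ⟨m, hm⟩ := h2
  refine ⟨n + m, ?_⟩
  rw [Function.iterate_add_apply, hm, hn]

/-- A rooted tree decomposition of width at most `k` of the multigraph with edge set `A`. -/
structure IsRTD (p : T → T) (d : T → ℕ) (root : T) (bag : T → Finset V) (ends : E → V × V)
    (A : Finset E) (k : ℕ) : Prop where
  proot : p root = root
  rank : ∀ t, t ≠ root → d (p t) < d t
  width : ∀ t, (bag t).card ≤ k + 1
  cover : ∀ e ∈ A, ∃ t, (ends e).1 ∈ bag t ∧ (ends e).2 ∈ bag t
  conn : ∀ v t, v ∈ bag t → v ∉ bag (p t) → ∀ t', v ∈ bag t' → Desc p t t'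

/-- The incident edges of a vertex. -/
def star (ends : E → V × V) (A : Finset E) (v : V) : Finset E :=
  A.filter (fun e => (ends e).1 = v ∨ (ends e).2 = v)

omit [Fintype T] in
lemma desc_root {p : T → T} {d : T → ℕ} {root : T} (hrank : ∀ t, t ≠ root → d (p t) < d t) :
    ∀ (n : ℕ) (t : T), d t = n → Desc p root t := by
  intro n
  induction n using Nat.strong_induction_on with
  | _ n IH =>
  intro t ht
  by_cases h : t = root
  · subst h; exact Desc.refl p t
  · have h1 := hrank t h
    obtain ⟨m, hm⟩ := IH (d (p t)) (by omega) (p t) rfl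
    exact ⟨m + 1, by rw [Function.iterate_succ_apply, hm]⟩

omit [Fintype E] [DecidableEq E] [Fintype T] in
lemma chain {p : T → T} {d : T → ℕ} {root : T} {bag : T → Finset V} {ends : E → V × V}
    {A : Finset E} {k : ℕ} (h : IsRTD p d root bag ends A k) (c : T) (v : V)
    (hv : v ∉ bag (p c)) :
    ∀ (n : ℕ) (t' : T), p^[n] t' = c → v ∈ bag t' → ∀ t'', v ∈ bag t'' → Desc p c t'' := by
  intro n
  induction n with
  | zero =>
    intro t' ht' hvt t'' ht''
    have : t' = c := ht'
    subst this
    exact h.conn v t' hvt hv t'' ht''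
  | succ n ih =>
    intro t' ht' hvt t'' ht''
    rw [Function.iterate_succ_apply] at ht'
    by_cases hp : v ∈ bag (p t')
    · exact ih (p t') ht' hp t'' ht''
    · have h1 := h.conn v t' hvt hp t'' ht''
      have h2 : Desc p c t' := ⟨n + 1, by rw [Function.iterate_succ_apply]; exact ht'⟩
      exact h2.trans h1

omit [Fintype E] in
lemma degree_count (ends : E → V × V) (A : Finset E) (S : Finset V)
    (hdeg : ∀ v ∈ S, 3 ≤ (star ends A v).card) :
    3 * S.card ≤ 2 * (A.filter (fun e => (ends e).1 ∈ S ∨ (ends e).2 ∈ S)).card := by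
  classical
  have h1 : 3 * S.card ≤ ∑ v ∈ S, (star ends A v).card := by
    calc 3 * S.card = ∑ _v ∈ S, 3 := by simp [mul_comm]
      _ ≤ _ := sum_le_sum hdeg
  have h2 : ∀ v ∈ S, (star ends A v).card ≤ (A.filter (fun e => (ends e).1 = v)).card +
      (A.filter (fun e => (ends e).2 = v)).card := by
    intro v _
    unfold star
    rw [filter_or]
    exact card_union_le _ _
  have h3 : ∑ v ∈ S, (A.filter (fun e => (ends e).1 = v)).card =
      (A.filter (fun e => (ends e).1 ∈ S)).card := by
    rw [card_eq_sum_card_fiberwise (f := fun e => (ends e).1) (t := S)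
      (s := A.filter (fun e => (ends e).1 ∈ S))]
    · apply sum_congr rfl
      intro v hv
      congr 1
      ext e
      simp only [mem_filter]
      constructor
      · rintro ⟨a, b⟩
        exact ⟨⟨a, by rw [b]; exact hv⟩, b⟩
      · rintro ⟨⟨a, _⟩, b⟩
        exact ⟨a, b⟩
    · intro e he
      have := (mem_filter.1 (by simpa using he : e ∈ A.filter (fun e => (ends e).1 ∈ S))).2
      simpa using this
  have h4 : ∑ v ∈ S, (A.filter (fun e => (ends e).2 = v)).card =
      (A.filter (fun e => (ends e).2 ∈ S)).card := by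
    rw [card_eq_sum_card_fiberwise (f := fun e => (ends e).2) (t := S)
      (s := A.filter (fun e => (ends e).2 ∈ S))]
    · apply sum_congr rfl
      intro v hv
      congr 1
      ext e
      simp only [mem_filter]
      constructor
      · rintro ⟨a, b⟩
        exact ⟨⟨a, by rw [b]; exact hv⟩, b⟩
      · rintro ⟨⟨a, _⟩, b⟩
        exact ⟨a, b⟩
    · intro e he
      have := (mem_filter.1 (by simpa using he : e ∈ A.filter (fun e => (ends e).2 ∈ S))).2
      simpa using this
  have h5 : (A.filter (fun e => (ends e).1 ∈ S)).card ≤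
      (A.filter (fun e => (ends e).1 ∈ S ∨ (ends e).2 ∈ S)).card := by
    apply card_le_card
    intro e he
    rw [mem_filter] at he ⊢
    exact ⟨he.1, Or.inl he.2⟩
  have h6 : (A.filter (fun e => (ends e).2 ∈ S)).card ≤
      (A.filter (fun e => (ends e).1 ∈ S ∨ (ends e).2 ∈ S)).card := by
    apply card_le_card
    intro e he
    rw [mem_filter] at he ⊢
    exact ⟨he.1, Or.inr he.2⟩
  calc 3 * S.card ≤ ∑ v ∈ S, (star ends A v).card := h1
    _ ≤ ∑ v ∈ S, ((A.filter (fun e => (ends e).1 = v)).card +
        (A.filter (fun e => (ends e).2 = v)).card) := sum_le_sum h2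
    _ = (A.filter (fun e => (ends e).1 ∈ S)).card + (A.filter (fun e => (ends e).2 ∈ S)).card := by
        rw [sum_add_distrib, h3, h4]
    _ ≤ _ := by omega

/-- **A dense piece.** -/
theorem dense_piece {p : T → T} {d : T → ℕ} {root : T} {bag : T → Finset V} {ends : E → V × V}
    {A : Finset E} {k : ℕ} (h : IsRTD p d root bag ends A k) (hA : A.Nonempty)
    (hdeg : ∀ v, (star ends A v).Nonempty → 3 ≤ (star ends A v).card) :
    ∃ (V' : Finset V) (E' : Finset E), V'.Nonempty ∧ V'.card ≤ 10 * (k + 1) ∧ E' ⊆ A ∧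
      (∀ e ∈ E', (ends e).1 ∈ V' ∧ (ends e).2 ∈ V') ∧ 6 * V'.card ≤ 5 * E'.card := by
  classical
  set W : Finset V := A.image (fun e => (ends e).1) ∪ A.image (fun e => (ends e).2) with hW
  have hWdeg : ∀ v ∈ W, 3 ≤ (star ends A v).card := by
    intro v hv
    apply hdeg
    rw [hW, mem_union, mem_image, mem_image] at hv
    rcases hv with ⟨e, he, rfl⟩ | ⟨e, he, rfl⟩
    · exact ⟨e, mem_filter.2 ⟨he, Or.inl rfl⟩⟩
    · exact ⟨e, mem_filter.2 ⟨he, Or.inr rfl⟩⟩
  have hW1 : ∀ e ∈ A, (ends e).1 ∈ W := fun e he =>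
    mem_union_left _ (mem_image_of_mem _ he)
  have hW2 : ∀ e ∈ A, (ends e).2 ∈ W := fun e he =>
    mem_union_right _ (mem_image_of_mem _ he)
  have hWne : W.Nonempty := by
    obtain ⟨e, he⟩ := hA
    exact ⟨_, hW1 e he⟩
  by_cases hsmall : W.card ≤ 10 * (k + 1)
  · refine ⟨W, A, hWne, hsmall, Subset.refl _, fun e he => ⟨hW1 e he, hW2 e he⟩, ?_⟩
    have h1 := degree_count ends A W hWdeg
    have h2 := card_filter_le A (fun e => (ends e).1 ∈ W ∨ (ends e).2 ∈ W)
    omega
  · push Not at hsmall
    -- vertices below `t`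
    set B : T → Finset V := fun t => W.filter (fun v => ∃ t', Desc p t t' ∧ v ∈ bag t') with hB
    have hBroot : B root = W := by
      rw [hB]
      ext v
      simp only [mem_filter, and_iff_left_iff_imp]
      intro hv
      rw [hW, mem_union, mem_image, mem_image] at hv
      rcases hv with ⟨e, he, rfl⟩ | ⟨e, he, rfl⟩
      · obtain ⟨t, h1, h2⟩ := h.cover e he
        exact ⟨t, desc_root h.rank _ t rfl, h1⟩
      · obtain ⟨t, h1, h2⟩ := h.cover e he
        exact ⟨t, desc_root h.rank _ t rfl, h2⟩
    have hex : ((univ : Finset T).filter (fun t => 5 * (k + 1) ≤ (B t).card)).Nonempty := by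
      refine ⟨root, ?_⟩
      rw [mem_filter]
      refine ⟨mem_univ _, ?_⟩
      rw [hBroot]
      omega
    obtain ⟨t, ht, htmax⟩ := exists_max_image _ d hex
    rw [mem_filter] at ht
    set C : Finset T := univ.filter (fun c => p c = t ∧ c ≠ t) with hC
    have hCsmall : ∀ c ∈ C, (B c).card < 5 * (k + 1) := by
      intro c hc
      rw [hC, mem_filter] at hc
      by_contra hcon
      push Not at hcon
      have h1 := htmax c (mem_filter.2 ⟨mem_univ _, hcon⟩)
      have h2 : c ≠ root := by
        intro h3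
        apply hc.2.2
        rw [← hc.2.1, h3, h.proot]
      have h4 := h.rank c h2
      rw [hc.2.1] at h4
      omega
    -- the union of the pieces
    set P : T → Finset V := fun c => B c \ bag t with hP
    have hcov : B t ⊆ bag t ∪ C.biUnion P := by
      intro v hv
      rw [mem_union]
      by_cases hvt : v ∈ bag t
      · exact Or.inl hvt
      · right
        simp only [hB, mem_filter] at hv
        obtain ⟨hvW, t', hdesc, hvt'⟩ := hv
        have hdesc' : ∃ n, p^[n] t' = t := hdesc
        have hn := Nat.find_spec hdesc'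
        set n := Nat.find hdesc' with hndef
        rcases Nat.eq_zero_or_pos n with h0 | hpos
        · rw [h0] at hn
          have : t' = t := hn
          subst this
          exact absurd hvt' hvt
        · obtain ⟨m, hm⟩ := Nat.exists_eq_succ_of_ne_zero (Nat.pos_iff_ne_zero.1 hpos)
          rw [mem_biUnion]
          refine ⟨p^[m] t', ?_, ?_⟩
          · rw [hC, mem_filter]
            refine ⟨mem_univ _, ?_, ?_⟩
            · rw [← Function.iterate_succ_apply' p m t']
              rw [hm] at hn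
              exact hn
            · have hlt : m < Nat.find hdesc' := by rw [← hndef]; omega
              exact Nat.find_min hdesc' hlt
          · simp only [hP, hB, mem_sdiff, mem_filter]
            exact ⟨⟨hvW, t', ⟨m, rfl⟩, hvt'⟩, hvt⟩
    have hbig : 4 * (k + 1) ≤ (C.biUnion P).card := by
      have h1 := card_le_card hcov
      have h2 := card_union_le (bag t) (C.biUnion P)
      have h3 := h.width t
      omega
    -- a minimal subfamily
    have hmin : ∃ C' ⊆ C, 4 * (k + 1) ≤ (C'.biUnion P).card ∧ (C'.biUnion P).card ≤ 9 * (k + 1) := by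
      have hexC : ((C.powerset).filter (fun C' => 4 * (k + 1) ≤ (C'.biUnion P).card)).Nonempty :=
        ⟨C, mem_filter.2 ⟨mem_powerset_self C, hbig⟩⟩
      obtain ⟨C', hC', hC'min⟩ := exists_min_image _ Finset.card hexC
      rw [mem_filter, mem_powerset] at hC'
      refine ⟨C', hC'.1, hC'.2, ?_⟩
      have hne : C'.Nonempty := by
        rw [nonempty_iff_ne_empty]
        intro h0
        rw [h0] at hC'
        simp at hC'
      obtain ⟨c, hc⟩ := hne
      have h1 : ¬ (4 * (k + 1) ≤ ((C'.erase c).biUnion P).card) := by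
        intro hcon
        have h2 := hC'min (C'.erase c) (mem_filter.2 ⟨mem_powerset.2
          ((erase_subset _ _).trans hC'.1), hcon⟩)
        have h3 := card_erase_lt_of_mem hc
        omega
      have h2 : C'.biUnion P = P c ∪ (C'.erase c).biUnion P := by
        rw [← biUnion_insert, insert_erase hc]
      have h3 : (P c).card < 5 * (k + 1) :=
        lt_of_le_of_lt (card_le_card sdiff_subset) (hCsmall c (hC'.1 hc))
      rw [h2]
      have h4 := card_union_le (P c) ((C'.erase c).biUnion P)
      omega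
    obtain ⟨C', hC'C, hlow, hupp⟩ := hmin
    set S : Finset V := C'.biUnion P with hS
    have hSW : S ⊆ W := by
      intro v hv
      rw [hS, mem_biUnion] at hv
      obtain ⟨c, _, hv⟩ := hv
      simp only [hP, hB, mem_sdiff, mem_filter] at hv
      exact hv.1.1
    have hSnb : ∀ e ∈ A, ∀ u w : V, (((ends e).1 = u ∧ (ends e).2 = w) ∨
        ((ends e).1 = w ∧ (ends e).2 = u)) → u ∈ S → w ∈ S ∪ bag t := by
      intro e he u w huw hu
      rw [mem_union]
      by_cases hwt : w ∈ bag t
      · exact Or.inr hwt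
      · left
        rw [hS, mem_biUnion] at hu
        obtain ⟨c, hc, hu⟩ := hu
        simp only [hP, hB, mem_sdiff, mem_filter] at hu
        obtain ⟨⟨huW, t', ⟨n, hn⟩, hut'⟩, hut⟩ := hu
        have hpc : p c = t := (mem_filter.1 (hC'C hc)).2.1
        have hcov2 : ∃ t2, u ∈ bag t2 ∧ w ∈ bag t2 := by
          obtain ⟨t2, h1, h2⟩ := h.cover e he
          rcases huw with ⟨ha, hb⟩ | ⟨ha, hb⟩
          · exact ⟨t2, ha ▸ h1, hb ▸ h2⟩
          · exact ⟨t2, hb ▸ h2, ha ▸ h1⟩
        obtain ⟨t2, hu2, hw2⟩ := hcov2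
        have hdesc := chain h c u (by rw [hpc]; exact hut) n t' hn hut' t2 hu2
        have hwW : w ∈ W := by
          rcases huw with ⟨ha, hb⟩ | ⟨ha, hb⟩
          · exact hb ▸ hW2 e he
          · exact ha ▸ hW1 e he
        rw [hS, mem_biUnion]
        refine ⟨c, hc, ?_⟩
        simp only [hP, hB, mem_sdiff, mem_filter]
        exact ⟨⟨hwW, t2, hdesc, hw2⟩, hwt⟩
    refine ⟨S ∪ bag t, A.filter (fun e => (ends e).1 ∈ S ∨ (ends e).2 ∈ S), ?_, ?_,
      filter_subset _ _, ?_, ?_⟩
    · have : 0 < S.card := by omega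
      obtain ⟨v, hv⟩ := card_pos.1 this
      exact ⟨v, mem_union_left _ hv⟩
    · have h1 := card_union_le S (bag t)
      have h2 := h.width t
      omega
    · intro e he
      rw [mem_filter] at he
      rcases he.2 with h1 | h1
      · exact ⟨mem_union_left _ h1, hSnb e he.1 _ _ (Or.inl ⟨rfl, rfl⟩) h1⟩
      · exact ⟨hSnb e he.1 _ _ (Or.inr ⟨rfl, rfl⟩) h1, mem_union_left _ h1⟩
    · have h1 := degree_count ends A S (fun v hv => hWdeg v (hSW hv))
      have h2 := card_union_le S (bag t)
      have h3 := h.width t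
      omega

/-- The length bound of the short even sets. -/
def Lk (k : ℕ) : ℕ := 8 * (Nat.log 2 (10 * (k + 1)) + 1)

/-- **Short even sets in multigraphs of bounded treewidth.** -/
theorem short_even_tw {p : T → T} {d : T → ℕ} {root : T} {bag : T → Finset V}
    {ends : E → V × V} {A : Finset E} {k : ℕ} (h : IsRTD p d root bag ends A k)
    (hA : A.Nonempty) (hdeg : ∀ v, (star ends A v).Nonempty → 3 ≤ (star ends A v).card) :
    ∃ z : E → ZMod 2, z ≠ 0 ∧ supp z ⊆ A ∧ (∀ x, bd ends z x = 0) ∧ (supp z).card ≤ Lk k := by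
  obtain ⟨V', E', hne, hcard, hEA, hE, hdens⟩ := dense_piece h hA hdeg
  have hJ : 10 * (k + 1) * 5 ^ (4 * (Nat.log 2 (10 * (k + 1)) + 1)) <
      6 ^ (4 * (Nat.log 2 (10 * (k + 1)) + 1)) := by
    set m := Nat.log 2 (10 * (k + 1)) + 1 with hm
    have h1 : 10 * (k + 1) < 2 ^ m := Nat.lt_pow_succ_log_self (by norm_num) _
    have h2 : 2 ^ m * 5 ^ (4 * m) ≤ 6 ^ (4 * m) := by
      rw [pow_mul, pow_mul, ← mul_pow]
      exact Nat.pow_le_pow_left (by norm_num) m
    have h3 : 10 * (k + 1) * 5 ^ (4 * m) < 2 ^ m * 5 ^ (4 * m) :=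
      Nat.mul_lt_mul_of_pos_right h1 (by positivity)
    omega
  obtain ⟨z, hz0, hzs, hzb, hzc⟩ := short_even ends (10 * (k + 1))
    (4 * (Nat.log 2 (10 * (k + 1)) + 1)) hJ V'.card V' E' rfl hne hcard hE hdens
  refine ⟨z, hz0, hzs.trans hEA, hzb, ?_⟩
  unfold Lk
  omega

end BNTW
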