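import Mathlib

/-!
Short even sets in finite multigraphs with many edges.
A multigraph is given by `ends : E → V × V`; `bd` is its boundary map over `ZMod 2`.
-/

namespace BNTW

open Finset

variable {V E : Type*} [Fintype E] [DecidableEq V] [DecidableEq E]

/-- Incidence coefficient of the edge `e` at the vertex `x` (a loop contributes `0`). -/
def inc (ends : E → V × V) (e : E) (x : V) : ZMod 2 :=
  (if (ends e).1 = x then 1 else 0) + (if (ends e).2 = x then 1 else 0)

/-- The boundary of an edge vector. -/
def bd (ends : E → V × V) (z : E → ZMod 2) (x : V) : ZMod 2 := ∑ e, z e * inc ends e x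

/-- The support of an edge vector. -/
def supp (z : E → ZMod 2) : Finset E := univ.filter (fun e => z e ≠ 0)

omit [DecidableEq E] in
lemma mem_supp (z : E → ZMod 2) (e : E) : e ∈ supp z ↔ z e ≠ 0 := by
  simp [supp]

omit [DecidableEq E] in
lemma bd_add (ends : E → V × V) (z z' : E → ZMod 2) (x : V) :
    bd ends (z + z') x = bd ends z x + bd ends z' x := by
  simp [bd, add_mul, sum_add_distrib]

omit [DecidableEq E] in
lemma bd_zero (ends : E → V × V) (x : V) : bd ends 0 x = 0 := by
  simp [bd]

lemma bd_single (ends : E → V × V) (e : E) (x : V) :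
    bd ends (Pi.single e 1) x = inc ends e x := by
  simp only [bd]
  rw [Finset.sum_eq_single e]
  · simp
  · intro b _ hb
    simp [Pi.single_eq_of_ne hb]
  · simp

lemma supp_add (z z' : E → ZMod 2) : supp (z + z') ⊆ supp z ∪ supp z' := by
  intro e he
  rw [mem_supp] at he
  rw [mem_union, mem_supp, mem_supp]
  by_contra h
  push Not at h
  apply he
  simp [h.1, h.2]

lemma supp_single (e : E) : supp (Pi.single e (1 : ZMod 2)) ⊆ {e} := by
  intro f hf
  rw [mem_supp] at hf
  rw [mem_singleton]
  by_contra h
  exact hf (Pi.single_eq_of_ne h 1)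

lemma zmod2_add_self (a : ZMod 2) : a + a = 0 := by
  revert a; decide

/-- Path data in a ball. -/
def Ball (ends : E → V × V) (E' : Finset E) (V' : Finset V) (r : V) (j : ℕ)
    (S : Finset V) (Tr : Finset E) : Prop :=
  r ∈ S ∧ S ⊆ V' ∧ Tr ⊆ E' ∧ Tr.card + 1 ≤ S.card ∧
    ∀ v ∈ S, ∃ z : E → ZMod 2, supp z ⊆ Tr ∧ (supp z).card ≤ j ∧
      ∀ x, bd ends z x = (if v = x then 1 else 0) + (if r = x then 1 else 0)

omit [DecidableEq E] in
lemma ball_zero (ends : E → V × V) (E' : Finset E) (V' : Finset V) (r : V) (hr : r ∈ V') :
    Ball ends E' V' r 0 {r} ∅ := by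
  refine ⟨by simp, by simpa using hr, by simp, by simp, ?_⟩
  intro v hv
  rw [mem_singleton] at hv
  subst hv
  refine ⟨0, ?_, ?_, ?_⟩
  · intro e he
    rw [mem_supp] at he
    exact absurd rfl he
  · have : supp (0 : E → ZMod 2) = ∅ := by
      ext e; simp [mem_supp]
    rw [this]; simp
  · intro x
    rw [bd_zero, zmod2_add_self]

/-- One growth step. `Sp` is the ball with its neighbours. -/
lemma ball_step [Nonempty E] (ends : E → V × V) (E' : Finset E) (V' : Finset V) (r : V) (j : ℕ)
    (S : Finset V) (Tr : Finset E) (h : Ball ends E' V' r j S Tr)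
    (hE : ∀ e ∈ E', (ends e).1 ∈ V' ∧ (ends e).2 ∈ V') :
    ∃ Sp Trp, Ball ends E' V' r (j + 1) Sp Trp ∧ S ⊆ Sp ∧
      (∀ e ∈ E', ((ends e).1 ∈ S ∨ (ends e).2 ∈ S) → (ends e).1 ∈ Sp ∧ (ends e).2 ∈ Sp) ∧
      (∀ v ∈ Sp, v ∈ S ∨ ∃ e ∈ E', ((ends e).1 ∈ S ∨ (ends e).2 ∈ S) ∧
        ((ends e).1 = v ∨ (ends e).2 = v)) ∧ Tr ⊆ Trp := by
  classical
  obtain ⟨hrS, hSV, hTE, hTS, hpath⟩ := h
  set N : Finset V := V'.filter (fun v => v ∉ S ∧ ∃ e ∈ E',
    ((ends e).1 = v ∧ (ends e).2 ∈ S) ∨ ((ends e).2 = v ∧ (ends e).1 ∈ S)) with hN
  have hNd : ∀ v ∈ N, ∃ e ∈ E',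
    ((ends e).1 = v ∧ (ends e).2 ∈ S) ∨ ((ends e).2 = v ∧ (ends e).1 ∈ S) := by
    intro v hv
    rw [hN, mem_filter] at hv
    exact hv.2.2
  choose! c hc using hNd
  have hdisj : Disjoint S N := by
    rw [Finset.disjoint_left]
    intro v hv hv'
    rw [hN, mem_filter] at hv'
    exact hv'.2.1 hv
  refine ⟨S ∪ N, Tr ∪ N.image c, ⟨?_, ?_, ?_, ?_, ?_⟩, ?_, ?_, ?_, ?_⟩
  · exact mem_union_left _ hrS
  · intro v hv
    rw [mem_union] at hv
    rcases hv with hv | hv
    · exact hSV hv
    · rw [hN, mem_filter] at hv
      exact hv.1
  · intro e he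
    rw [mem_union] at he
    rcases he with he | he
    · exact hTE he
    · rw [mem_image] at he
      obtain ⟨v, hv, rfl⟩ := he
      exact (hc v hv).1
  · rw [card_union_of_disjoint hdisj]
    have h1 := card_union_le Tr (N.image c)
    have h2 : (N.image c).card ≤ N.card := card_image_le
    omega
  · intro v hv
    rw [mem_union] at hv
    rcases hv with hv | hv
    · obtain ⟨z, hz1, hz2, hz3⟩ := hpath v hv
      exact ⟨z, hz1.trans subset_union_left, by omega, hz3⟩
    · obtain ⟨hcE, hcv⟩ := hc v hv
      have key : ∃ u ∈ S, ∀ x, inc ends (c v) x = (if v = x then 1 else 0) +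
          (if u = x then 1 else 0) := by
        rcases hcv with ⟨h1, h2⟩ | ⟨h1, h2⟩
        · refine ⟨(ends (c v)).2, h2, ?_⟩
          intro x
          unfold inc
          rw [h1]
        · refine ⟨(ends (c v)).1, h2, ?_⟩
          intro x
          unfold inc
          rw [h1, add_comm]
      obtain ⟨u, hu, hinc⟩ := key
      obtain ⟨z, hz1, hz2, hz3⟩ := hpath u hu
      refine ⟨z + Pi.single (c v) 1, ?_, ?_, ?_⟩
      · intro e he
        have := supp_add _ _ he
        rw [mem_union] at this
        rcases this with h | h
        · exact mem_union_left _ (hz1 h)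
        · have := supp_single _ h
          rw [mem_singleton] at this
          subst this
          exact mem_union_right _ (mem_image_of_mem c hv)
      · calc (supp (z + Pi.single (c v) 1)).card ≤ (supp z ∪ supp (Pi.single (c v) 1)).card :=
              card_le_card (supp_add _ _)
          _ ≤ (supp z).card + (supp (Pi.single (c v) (1 : ZMod 2))).card := card_union_le _ _
          _ ≤ j + 1 := by
              have : (supp (Pi.single (c v) (1 : ZMod 2))).card ≤ 1 := by
                calc _ ≤ ({c v} : Finset E).card := card_le_card (supp_single _)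
                  _ = 1 := by simp
              omega
      · intro x
        rw [bd_add, bd_single, hz3, hinc]
        generalize (if u = x then (1 : ZMod 2) else 0) = a
        generalize (if r = x then (1 : ZMod 2) else 0) = b
        generalize (if v = x then (1 : ZMod 2) else 0) = d
        revert a b d
        decide
  · exact subset_union_left
  · intro e he hS
    have hV := hE e he
    have aux : ∀ a b : V, a ∈ S → b ∈ V' →
        (((ends e).1 = b ∧ (ends e).2 ∈ S) ∨ ((ends e).2 = b ∧ (ends e).1 ∈ S)) → b ∈ S ∪ N := by
      intro a b _ hb hor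
      by_cases hbS : b ∈ S
      · exact mem_union_left _ hbS
      · apply mem_union_right
        rw [hN, mem_filter]
        exact ⟨hb, hbS, e, he, hor⟩
    rcases hS with h | h
    · exact ⟨mem_union_left _ h, aux _ _ h hV.2 (Or.inr ⟨rfl, h⟩)⟩
    · exact ⟨aux _ _ h hV.1 (Or.inl ⟨rfl, h⟩), mem_union_left _ h⟩
  · intro v hv
    rw [mem_union] at hv
    rcases hv with hv | hv
    · exact Or.inl hv
    · right
      obtain ⟨hcE, hcv⟩ := hc v hv
      refine ⟨c v, hcE, ?_, ?_⟩
      · rcases hcv with ⟨_, h⟩ | ⟨_, h⟩
        · exact Or.inr h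
        · exact Or.inl h
      · rcases hcv with ⟨h, _⟩ | ⟨h, _⟩
        · exact Or.inl h
        · exact Or.inr h
  · exact subset_union_left

/-- **Short even sets.** A multigraph on at most `M` vertices with at least `6/5` times as many
edges as vertices contains a nonempty even edge set of size at most `2J`, where `(6/5)^J > M`. -/
theorem short_even (ends : E → V × V) (M J : ℕ) (hMJ : M * 5 ^ J < 6 ^ J) :
    ∀ (n : ℕ) (V' : Finset V) (E' : Finset E), V'.card = n → V'.Nonempty → V'.card ≤ M →
      (∀ e ∈ E', (ends e).1 ∈ V' ∧ (ends e).2 ∈ V') → 6 * V'.card ≤ 5 * E'.card →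
      ∃ z : E → ZMod 2, z ≠ 0 ∧ supp z ⊆ E' ∧ (∀ x, bd ends z x = 0) ∧
        (supp z).card ≤ 2 * J := by
  classical
  intro n
  induction n using Nat.strong_induction_on with
  | _ n IH =>
  intro V' E' hn hne hM hE hcard
  obtain ⟨r, hr⟩ := hne
  have hVpos : 0 < V'.card := card_pos.2 ⟨r, hr⟩
  have : Nonempty E := by
    have : 0 < E'.card := by omega
    obtain ⟨e, _⟩ := card_pos.1 this
    exact ⟨e⟩
  -- claim by induction on `j`
  have claim : ∀ j, j ≤ J → (∃ z : E → ZMod 2, z ≠ 0 ∧ supp z ⊆ E' ∧ (∀ x, bd ends z x = 0) ∧
        (supp z).card ≤ 2 * J) ∨ ∃ S Tr, Ball ends E' V' r j S Tr ∧ 6 ^ j ≤ S.card * 5 ^ j := by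
    intro j
    induction j with
    | zero =>
      intro _
      right
      exact ⟨{r}, ∅, ball_zero ends E' V' r hr, by simp⟩
    | succ j ih =>
      intro hj
      rcases ih (by omega) with h | ⟨S, Tr, hball, hgrow⟩
      · exact Or.inl h
      · obtain ⟨Sp, Trp, hballp, hSSp, hDin, _, hTTp⟩ := ball_step ends E' V' r j S Tr hball hE
        obtain ⟨hrS, hSV, hTE, hTS, hpath⟩ := hball
        have hballp' := hballp
        obtain ⟨hrSp, hSpV, hTpE, hTpS, hpathp⟩ := hballp'
        set D : Finset E := E'.filter (fun e => (ends e).1 ∈ S ∨ (ends e).2 ∈ S) with hD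
        by_cases hDc : Sp.card ≤ D.card
        · -- there is an edge in `D \ Trp`
          left
          have : ∃ e ∈ D, e ∉ Trp := by
            by_contra hcon
            push Not at hcon
            have := card_le_card (show D ⊆ Trp from hcon)
            omega
          obtain ⟨e, heD, heT⟩ := this
          rw [hD, mem_filter] at heD
          obtain ⟨heE, heS⟩ := heD
          have hin := hDin e heE heS
          -- path vectors
          have key : ∃ z1 z2 : E → ZMod 2, supp z1 ⊆ Trp ∧ supp z2 ⊆ Trp ∧
              (supp z1).card + (supp z2).card ≤ 2 * j + 1 ∧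
              (∀ x, bd ends z1 x = (if (ends e).1 = x then 1 else 0) + (if r = x then 1 else 0)) ∧
              (∀ x, bd ends z2 x = (if (ends e).2 = x then 1 else 0) + (if r = x then 1 else 0)) := by
            rcases heS with heS | heS
            · obtain ⟨z1, a1, a2, a3⟩ := hpath _ heS
              obtain ⟨z2, b1, b2, b3⟩ := hpathp _ hin.2
              exact ⟨z1, z2, a1.trans hTTp, b1, by omega, a3, b3⟩
            · obtain ⟨z1, a1, a2, a3⟩ := hpathp _ hin.1
              obtain ⟨z2, b1, b2, b3⟩ := hpath _ heS
              exact ⟨z1, z2, a1, b1.trans hTTp, by omega, a3, b3⟩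
          obtain ⟨z1, z2, h1, h2, h3, h4, h5⟩ := key
          refine ⟨z1 + z2 + Pi.single e 1, ?_, ?_, ?_, ?_⟩
          · intro h0
            have h6 := congrFun h0 e
            have e1 : z1 e = 0 := by
              by_contra hh
              exact heT (h1 ((mem_supp _ _).2 hh))
            have e2 : z2 e = 0 := by
              by_contra hh
              exact heT (h2 ((mem_supp _ _).2 hh))
            simp [e1, e2] at h6
          · intro f hf
            have := supp_add _ _ hf
            rw [mem_union] at this
            rcases this with h | h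
            · have := supp_add _ _ h
              rw [mem_union] at this
              rcases this with h | h
              · exact hTpE (h1 h)
              · exact hTpE (h2 h)
            · have := supp_single _ h
              rw [mem_singleton] at this
              subst this
              exact heE
          · intro x
            rw [bd_add, bd_add, bd_single, h4, h5]
            unfold inc
            generalize (if (ends e).1 = x then (1 : ZMod 2) else 0) = a
            generalize (if r = x then (1 : ZMod 2) else 0) = b
            generalize (if (ends e).2 = x then (1 : ZMod 2) else 0) = d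
            revert a b d
            decide
          · have hc1 : (supp (Pi.single e (1 : ZMod 2))).card ≤ 1 := by
              calc _ ≤ ({e} : Finset E).card := card_le_card (supp_single _)
                _ = 1 := by simp
            calc (supp (z1 + z2 + Pi.single e 1)).card
                ≤ (supp (z1 + z2) ∪ supp (Pi.single e 1)).card := card_le_card (supp_add _ _)
              _ ≤ (supp (z1 + z2)).card + (supp (Pi.single e (1 : ZMod 2))).card :=
                  card_union_le _ _
              _ ≤ (supp z1 ∪ supp z2).card + 1 := by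
                  have := card_le_card (supp_add z1 z2)
                  omega
              _ ≤ (supp z1).card + (supp z2).card + 1 := by
                  have := card_union_le (supp z1) (supp z2)
                  omega
              _ ≤ 2 * J := by omega
        · push Not at hDc
          by_cases hg : 5 * Sp.card ≤ 6 * S.card
          · -- reduction
            left
            have hSpos : 0 < S.card := card_pos.2 ⟨r, hrS⟩
            have hE'' : ∀ e ∈ E' \ D, (ends e).1 ∈ V' \ S ∧ (ends e).2 ∈ V' \ S := by
              intro e he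
              rw [mem_sdiff] at he
              have hnot : ¬ ((ends e).1 ∈ S ∨ (ends e).2 ∈ S) := by
                intro hh
                exact he.2 (by rw [hD, mem_filter]; exact ⟨he.1, hh⟩)
              push Not at hnot
              have := hE e he.1
              exact ⟨mem_sdiff.2 ⟨this.1, hnot.1⟩, mem_sdiff.2 ⟨this.2, hnot.2⟩⟩
            have hDE : D ⊆ E' := by
              rw [hD]; exact filter_subset _ _
            have c1 : (V' \ S).card = V'.card - S.card := card_sdiff_of_subset hSV
            have c2 : (E' \ D).card = E'.card - D.card := card_sdiff_of_subset hDE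
            have c3 : S.card ≤ V'.card := card_le_card hSV
            have c4 : D.card ≤ E'.card := card_le_card hDE
            have hpos : 0 < (E' \ D).card := by omega
            have hne' : (V' \ S).Nonempty := by
              obtain ⟨e, he⟩ := card_pos.1 hpos
              exact ⟨_, (hE'' e he).1⟩
            obtain ⟨z, hz0, hzs, hzb, hzc⟩ := IH (V' \ S).card (by omega) (V' \ S) (E' \ D) rfl
              hne' (by omega) hE'' (by omega)
            exact ⟨z, hz0, hzs.trans sdiff_subset, hzb, hzc⟩
          · right
            push Not at hg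
            refine ⟨Sp, Trp, hballp, ?_⟩
            rw [pow_succ, pow_succ]
            nlinarith [Nat.one_le_pow j 5 (by norm_num)]
  rcases claim J le_rfl with h | ⟨S, Tr, hball, hgrow⟩
  · exact h
  · exfalso
    have h1 : S.card ≤ M := (card_le_card hball.2.1).trans hM
    have h2 : S.card * 5 ^ J ≤ M * 5 ^ J := Nat.mul_le_mul_right _ h1
    omega

end BNTW
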