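import Pool.Agent.Helper18.BN.Main

/-!
Suppressing a vertex of degree two, and the main induction.
-/

namespace BNTW

open Finset

variable {V E T : Type*} [Fintype E] [DecidableEq V] [DecidableEq E] [Fintype T]

/-- The new end map: the edge `e` now joins `a` and `b`. -/
def newEnds (ends : E → V × V) (e : E) (a b : V) : E → V × V := Function.update ends e (a, b)

/-- The new bags: `v` is replaced by `a`. -/
def newBag (bag : T → Finset V) (v a : V) (t : T) : Finset V :=
  if v ∈ bag t then insert a ((bag t).erase v) else bag t

omit [Fintype T] in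
lemma mem_newBag_of_ne {bag : T → Finset V} {v a : V} {t : T} {x : V} (hxv : x ≠ v)
    (hx : x ∈ bag t) : x ∈ newBag bag v a t := by
  unfold newBag
  split_ifs
  · exact mem_insert_of_mem (mem_erase.2 ⟨hxv, hx⟩)
  · exact hx

omit [Fintype T] in
lemma mem_newBag_iff {bag : T → Finset V} {v a : V} {t : T} {x : V} (hva : v ≠ a) :
    x ∈ newBag bag v a t ↔ x ≠ v ∧ (x ∈ bag t ∨ (x = a ∧ v ∈ bag t)) := by
  unfold newBag
  split_ifs with h
  · rw [mem_insert, mem_erase]
    constructor
    · rintro (rfl | ⟨h1, h2⟩)
      · exact ⟨fun h' => hva h'.symm, Or.inr ⟨rfl, h⟩⟩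
      · exact ⟨h1, Or.inl h2⟩
    · rintro ⟨h1, h2 | ⟨h2, _⟩⟩
      · exact Or.inr ⟨h1, h2⟩
      · exact Or.inl h2
  · constructor
    · intro hx
      refine ⟨?_, Or.inl hx⟩
      rintro rfl
      exact h hx
    · rintro ⟨_, h2 | ⟨_, h2⟩⟩
      · exact h2
      · exact absurd h2 h

/-- The incidence vector of an edge joining `v` and `a`. -/
def Joins (ends : E → V × V) (e : E) (v a : V) : Prop :=
  ((ends e).1 = v ∧ (ends e).2 = a) ∨ ((ends e).1 = a ∧ (ends e).2 = v)

omit [Fintype E] [DecidableEq E] in
lemma inc_of_joins {ends : E → V × V} {e : E} {v a : V} (h : Joins ends e v a) (x : V) :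
    inc ends e x = (if v = x then 1 else 0) + (if a = x then 1 else 0) := by
  unfold inc
  rcases h with ⟨h1, h2⟩ | ⟨h1, h2⟩
  · rw [h1, h2]
  · rw [h1, h2, add_comm]

omit [Fintype E] in
lemma rtd_suppress {p : T → T} {d : T → ℕ} {root : T} {bag : T → Finset V}
    {ends : E → V × V} {A : Finset E} {k : ℕ} (h : IsRTD p d root bag ends A k)
    {e f : E} {v a b : V} (heA : e ∈ A) (hfA : f ∈ A) (hef : e ≠ f) (hje : Joins ends e v a)
    (hjf : Joins ends f v b) (hva : v ≠ a) (hvb : v ≠ b)
    (hstar : ∀ g ∈ A, g ≠ e → g ≠ f → (ends g).1 ≠ v ∧ (ends g).2 ≠ v) :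
    IsRTD p d root (newBag bag v a) (newEnds ends e a b) (A.erase f) k := by
  refine ⟨h.proot, h.rank, ?_, ?_, ?_⟩
  · intro t
    unfold newBag
    split_ifs with hv
    · have h1 := card_insert_le a ((bag t).erase v)
      have h2 := card_erase_lt_of_mem hv
      have h3 := h.width t
      omega
    · exact h.width t
  · intro g hg
    rw [mem_erase] at hg
    by_cases hge : g = e
    · subst hge
      obtain ⟨t, h1, h2⟩ := h.cover f hfA
      have hvb' : v ∈ bag t ∧ b ∈ bag t := by
        rcases hjf with ⟨h3, h4⟩ | ⟨h3, h4⟩
        · exact ⟨h3 ▸ h1, h4 ▸ h2⟩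
        · exact ⟨h4 ▸ h2, h3 ▸ h1⟩
      refine ⟨t, ?_, ?_⟩
      · simp only [newEnds, Function.update_self]
        rw [mem_newBag_iff hva]
        exact ⟨fun h' => hva h'.symm, Or.inr ⟨rfl, hvb'.1⟩⟩
      · simp only [newEnds, Function.update_self]
        exact mem_newBag_of_ne (fun h' => hvb h'.symm) hvb'.2
    · obtain ⟨t, h1, h2⟩ := h.cover g hg.2
      have h3 := hstar g hg.2 hge hg.1
      refine ⟨t, ?_, ?_⟩
      · simp only [newEnds, Function.update_of_ne hge]
        exact mem_newBag_of_ne h3.1 h1
      · simp only [newEnds, Function.update_of_ne hge]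
        exact mem_newBag_of_ne h3.2 h2
  · intro u t hu hup t' hu'
    rw [mem_newBag_iff hva] at hu hup hu'
    have huv := hu.1
    by_cases hua : u = a
    · subst hua
      have hup' : u ∉ bag (p t) ∧ v ∉ bag (p t) := by
        constructor
        · intro h1; exact hup ⟨huv, Or.inl h1⟩
        · intro h1; exact hup ⟨huv, Or.inr ⟨rfl, h1⟩⟩
      obtain ⟨t0, h1, h2⟩ := h.cover e heA
      have ht0 : v ∈ bag t0 ∧ u ∈ bag t0 := by
        rcases hje with ⟨h3, h4⟩ | ⟨h3, h4⟩
        · exact ⟨h3 ▸ h1, h4 ▸ h2⟩
        · exact ⟨h4 ▸ h2, h3 ▸ h1⟩
      have hd0 : Desc p t t0 := by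
        rcases hu.2 with h3 | ⟨_, h3⟩
        · exact h.conn u t h3 hup'.1 t0 ht0.2
        · exact h.conn v t h3 hup'.2 t0 ht0.1
      obtain ⟨n, hn⟩ := hd0
      rcases hu'.2 with h3 | ⟨_, h3⟩
      · exact chain h t u hup'.1 n t0 hn ht0.2 t' h3
      · exact chain h t v hup'.2 n t0 hn ht0.1 t' h3
    · have h1 : u ∈ bag t := by
        rcases hu.2 with h3 | ⟨h3, _⟩
        · exact h3
        · exact absurd h3 hua
      have h2 : u ∉ bag (p t) := fun h3 => hup ⟨huv, Or.inl h3⟩
      have h4 : u ∈ bag t' := by
        rcases hu'.2 with h3 | ⟨h3, _⟩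
        · exact h3
        · exact absurd h3 hua
      exact h.conn u t h1 h2 t' h4

/-- The boundary after suppression. -/
lemma bd_suppress {ends : E → V × V} {e f : E} {v a b : V} (hef : e ≠ f)
    (hje : Joins ends e v a) (hjf : Joins ends f v b) (z : E → ZMod 2) (hz : z f = z e) (x : V) :
    bd ends z x = bd (newEnds ends e a b) (Function.update z f 0) x := by
  have hnew : inc (newEnds ends e a b) e x = (if a = x then 1 else 0) + (if b = x then 1 else 0) := by
    unfold inc newEnds
    rw [Function.update_self]
  have hsub : bd ends z x - bd (newEnds ends e a b) (Function.update z f 0) x = 0 := by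
    unfold bd
    rw [← sum_sub_distrib]
    rw [← sum_subset (subset_univ {e, f})]
    · rw [sum_pair hef, Function.update_self, Function.update_of_ne hef, hnew,
        inc_of_joins hje, inc_of_joins hjf, hz, zero_mul, sub_zero]
      generalize (if v = x then (1 : ZMod 2) else 0) = c1
      generalize (if a = x then (1 : ZMod 2) else 0) = c2
      generalize (if b = x then (1 : ZMod 2) else 0) = c3
      generalize z e = c4
      revert c1 c2 c3 c4
      decide
    · intro g _ hg
      rw [mem_insert, mem_singleton, not_or] at hg
      rw [Function.update_of_ne hg.2]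
      have : inc (newEnds ends e a b) g x = inc ends g x := by
        unfold inc newEnds
        rw [Function.update_of_ne hg.1]
      rw [this, sub_self]
  exact sub_eq_zero.1 hsub

/-- Extending a vector from the suppressed multigraph. -/
def ext (e f : E) : (E → ZMod 2) →ₗ[ZMod 2] (E → ZMod 2) where
  toFun z := fun g => if g = f then z e else z g
  map_add' z z' := by
    ext g
    simp only [Pi.add_apply]
    split_ifs <;> rfl
  map_smul' c z := by
    ext g
    simp only [Pi.smul_apply, RingHom.id_apply]
    split_ifs <;> rfl

omit [Fintype E] in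
lemma ext_apply_self (e f : E) (z : E → ZMod 2) : ext e f z f = z e := by
  simp [ext]

omit [Fintype E] in
lemma ext_apply_ne (e f : E) (z : E → ZMod 2) {g : E} (hg : g ≠ f) : ext e f z g = z g := by
  simp [ext, hg]

/-- Suppressing a vertex of degree two. -/
lemma good_suppress {ends : E → V × V} {A : Finset E} {k : ℕ} {w : E → ℝ} (hw : ∀ e, 0 ≤ w e)
    {e f : E} {v a b : V} (heA : e ∈ A) (hfA : f ∈ A) (hef : e ≠ f)
    (hje : Joins ends e v a) (hjf : Joins ends f v b) (hva : v ≠ a) (hvb : v ≠ b)
    (hstar : ∀ g ∈ A, g ≠ e → g ≠ f → (ends g).1 ≠ v ∧ (ends g).2 ≠ v)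
    {B : Finset (E → ZMod 2)}
    (hB : Good (newEnds ends e a b) (A.erase f) k (Function.update w e (w e + w f)) B) :
    Good ends A k w (B.image (ext e f)) := by
  obtain ⟨h1, h2, h3⟩ := hB
  have heA' : e ∈ A.erase f := mem_erase.2 ⟨hef, heA⟩
  have hzf : ∀ z ∈ B, z f = 0 := by
    intro z hz
    by_contra hne
    exact (notMem_erase f A) ((h1 z hz).1 ((mem_supp z f).2 hne))
  refine ⟨?_, ?_, ?_⟩
  · intro y hy
    rw [mem_image] at hy
    obtain ⟨z, hz, rfl⟩ := hy
    constructor
    · intro g hg
      rw [mem_supp] at hg
      by_cases hgf : g = f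
      · subst hgf; exact hfA
      · rw [ext_apply_ne e f z hgf] at hg
        exact erase_subset _ _ ((h1 z hz).1 ((mem_supp z g).2 hg))
    · intro x
      rw [bd_suppress hef hje hjf (ext e f z) (by rw [ext_apply_self, ext_apply_ne e f z hef])]
      have : Function.update (ext e f z) f 0 = z := by
        ext g
        by_cases hgf : g = f
        · subst hgf
          rw [Function.update_self, hzf z hz]
        · rw [Function.update_of_ne hgf, ext_apply_ne e f z hgf]
      rw [this]
      exact (h1 z hz).2 x
  · intro z hzA hzb
    -- `z e = z f`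
    have hze : z e + z f = 0 := by
      have h4 := hzb v
      unfold bd at h4
      rw [← sum_subset (subset_univ {e, f})] at h4
      · rw [sum_pair hef, inc_of_joins hje, inc_of_joins hjf] at h4
        simp only [if_true, if_neg (fun h' : a = v => hva h'.symm),
          if_neg (fun h' : b = v => hvb h'.symm), add_zero, mul_one] at h4
        exact h4
      · intro g _ hg
        rw [mem_insert, mem_singleton, not_or] at hg
        by_cases hgA : g ∈ A
        · have h5 := hstar g hgA hg.1 hg.2
          have : inc ends g v = 0 := by
            unfold inc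
            rw [if_neg h5.1, if_neg h5.2, add_zero]
          rw [this, mul_zero]
        · have : z g = 0 := by
            by_contra hne
            exact hgA (hzA ((mem_supp z g).2 hne))
          rw [this, zero_mul]
    have hze' : z f = z e := by
      generalize z e = c1 at hze ⊢
      generalize z f = c2 at hze ⊢
      revert c1 c2
      decide
    have h6 := h2 (Function.update z f 0) (by
      intro g hg
      rw [mem_supp] at hg
      by_cases hgf : g = f
      · subst hgf
        rw [Function.update_self] at hg
        exact absurd rfl hg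
      · rw [Function.update_of_ne hgf] at hg
        exact mem_erase.2 ⟨hgf, hzA ((mem_supp z g).2 hg)⟩) (by
      intro x
      rw [← bd_suppress hef hje hjf z hze' x]
      exact hzb x)
    have h7 : ext e f (Function.update z f 0) = z := by
      ext g
      by_cases hgf : g = f
      · subst hgf
        rw [ext_apply_self, Function.update_of_ne hef, hze']
      · rw [ext_apply_ne e f _ hgf, Function.update_of_ne hgf]
    rw [← h7, coe_image, ← Submodule.map_span]
    exact Submodule.mem_map_of_mem h6
  · -- potential
    have hr1 := one_le_rk k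
    have hpl : ∀ g, g ≠ f → ply (B.image (ext e f)) g ≤ ply B g := by
      intro g hgf
      unfold ply
      calc ((B.image (ext e f)).filter (fun z => z g ≠ 0)).card
          ≤ ((B.filter (fun z => z g ≠ 0)).image (ext e f)).card := by
            apply card_le_card
            intro y hy
            rw [mem_filter, mem_image] at hy
            obtain ⟨⟨z, hz, rfl⟩, hy⟩ := hy
            rw [mem_image]
            exact ⟨z, mem_filter.2 ⟨hz, by rwa [ext_apply_ne e f z hgf] at hy⟩, rfl⟩
        _ ≤ _ := card_image_le
    have hplf : ply (B.image (ext e f)) f ≤ ply B e := by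
      unfold ply
      calc ((B.image (ext e f)).filter (fun z => z f ≠ 0)).card
          ≤ ((B.filter (fun z => z e ≠ 0)).image (ext e f)).card := by
            apply card_le_card
            intro y hy
            rw [mem_filter, mem_image] at hy
            obtain ⟨⟨z, hz, rfl⟩, hy⟩ := hy
            rw [mem_image]
            exact ⟨z, mem_filter.2 ⟨hz, by rwa [ext_apply_self] at hy⟩, rfl⟩
        _ ≤ _ := card_image_le
    have hmono : ∀ g m n, m ≤ n → w g * rk k ^ m ≤ w g * rk k ^ n := by
      intro g m n hmn
      exact mul_le_mul_of_nonneg_left (pow_le_pow_right₀ hr1 hmn) (hw g)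
    rw [← add_sum_erase _ _ heA'] at h3
    rw [← add_sum_erase (A.erase f) (Function.update w e (w e + w f)) heA'] at h3
    rw [Function.update_self] at h3
    have h8 : ∑ x ∈ (A.erase f).erase e, Function.update w e (w e + w f) x * rk k ^ ply B x =
        ∑ x ∈ (A.erase f).erase e, w x * rk k ^ ply B x := by
      apply sum_congr rfl
      intro x hx
      rw [Function.update_of_ne (mem_erase.1 hx).1]
    have h9 : ∑ x ∈ (A.erase f).erase e, Function.update w e (w e + w f) x =
        ∑ x ∈ (A.erase f).erase e, w x := by
      apply sum_congr rfl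
      intro x hx
      rw [Function.update_of_ne (mem_erase.1 hx).1]
    rw [h8, h9] at h3
    rw [← add_sum_erase A _ hfA, ← add_sum_erase A w hfA, ← add_sum_erase (A.erase f) _ heA',
      ← add_sum_erase (A.erase f) w heA']
    have h10 : ∑ x ∈ (A.erase f).erase e, w x * rk k ^ ply (B.image (ext e f)) x ≤
        ∑ x ∈ (A.erase f).erase e, w x * rk k ^ ply B x := by
      apply sum_le_sum
      intro x hx
      apply hmono
      exact hpl x (mem_erase.1 (mem_erase.1 hx).2).1
    have h11 := hmono f _ _ hplf
    have h12 := hmono e _ _ (hpl e hef)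
    nlinarith [h3, h10, h11, h12]

/-- **The main induction.** -/
theorem main_induction {p : T → T} {d : T → ℕ} {root : T} {k : ℕ} :
    ∀ (n : ℕ) (A : Finset E) (ends : E → V × V) (bag : T → Finset V) (w : E → ℝ),
      A.card = n → IsRTD p d root bag ends A k → (∀ e, 0 ≤ w e) →
      ∃ B : Finset (E → ZMod 2), Good ends A k w B := by
  classical
  intro n
  induction n with
  | zero =>
    intro A ends bag w hA _ _
    rw [card_eq_zero] at hA
    subst hA
    refine ⟨∅, by simp, ?_, by simp⟩
    intro z hz _
    have : z = 0 := by
      ext e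
      by_contra hne
      exact absurd (hz ((mem_supp z e).2 hne)) (notMem_empty e)
    rw [this]
    exact Submodule.zero_mem _
  | succ n ih =>
    intro A ends bag w hA h hw
    have hAne : A.Nonempty := card_pos.1 (by omega)
    by_cases hex : ∃ z : E → ZMod 2, z ≠ 0 ∧ supp z ⊆ A ∧ (∀ x, bd ends z x = 0) ∧
        (supp z).card ≤ Lk k
    · obtain ⟨z0, hz0, hz0A, hz0b, hz0c⟩ := hex
      have hne : (supp z0).Nonempty := by
        by_contra hcon
        rw [not_nonempty_iff_eq_empty] at hcon
        apply hz0
        ext e
        by_contra hne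
        have : e ∈ supp z0 := (mem_supp z0 e).2 hne
        rw [hcon] at this
        exact absurd this (notMem_empty e)
      obtain ⟨g, hg, hgmax⟩ := exists_max_image (supp z0) w hne
      have hr1 := one_le_rk k
      obtain ⟨B, hB⟩ := ih (A.erase g) ends bag
        (fun e => if e ∈ supp z0 then w e * rk k else w e)
        (by rw [card_erase_of_mem (hz0A hg)]; omega) (h.mono (erase_subset _ _)) (by
          intro e
          split_ifs
          · exact mul_nonneg (hw e) (by linarith)
          · exact hw e)
      exact ⟨insert z0 B, good_event hw z0 hz0A hz0b hz0c hg hgmax hB⟩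
    · push Not at hex
      have hL8 : 8 ≤ Lk k := by unfold Lk; omega
      -- no loops
      have hloop : ∀ e ∈ A, (ends e).1 ≠ (ends e).2 := by
        intro e he hl
        have h1 : (Pi.single e (1 : ZMod 2) : E → ZMod 2) ≠ 0 := by
          intro h0
          have := congrFun h0 e
          simp at this
        have h2 : supp (Pi.single e (1 : ZMod 2)) ⊆ A := by
          intro f hf
          have := supp_single e hf
          rw [mem_singleton] at this
          subst this
          exact he
        have h3 : ∀ x, bd ends (Pi.single e 1) x = 0 := by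
          intro x
          rw [bd_single]
          unfold inc
          rw [hl, zmod2_add_self]
        have h4 := hex _ h1 h2 h3
        have h5 : (supp (Pi.single e (1 : ZMod 2))).card ≤ 1 := by
          calc _ ≤ ({e} : Finset E).card := card_le_card (supp_single e)
            _ = 1 := by simp
        omega
      -- a vertex of small degree
      have hsmall : ∃ v, (star ends A v).Nonempty ∧ (star ends A v).card < 3 := by
        by_contra hcon
        push Not at hcon
        obtain ⟨z, hz0, hzA, hzb, hzc⟩ := short_even_tw h hAne hcon
        have := hex z hz0 hzA hzb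
        omega
      obtain ⟨v, hvne, hv3⟩ := hsmall
      have hjoin : ∀ e ∈ star ends A v, e ∈ A ∧ ∃ a, v ≠ a ∧ Joins ends e v a := by
        intro e he
        unfold star at he
        rw [mem_filter] at he
        refine ⟨he.1, ?_⟩
        have hl := hloop e he.1
        rcases he.2 with h1 | h1
        · exact ⟨(ends e).2, by rw [← h1]; exact hl, Or.inl ⟨h1, rfl⟩⟩
        · exact ⟨(ends e).1, by rw [← h1]; exact hl.symm, Or.inr ⟨rfl, h1⟩⟩
      have hcard : (star ends A v).card = 1 ∨ (star ends A v).card = 2 := by
        have := card_pos.2 hvne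
        omega
      rcases hcard with hc | hc
      · -- degree one
        obtain ⟨e, he⟩ := card_eq_one.1 hc
        have heS : e ∈ star ends A v := by rw [he]; simp
        obtain ⟨heA, a, hva, hje⟩ := hjoin e heS
        obtain ⟨B, hB⟩ := ih (A.erase e) ends bag w
          (by rw [card_erase_of_mem heA]; omega) (h.mono (erase_subset _ _)) hw
        refine ⟨B, good_delete heA hw ?_ hB⟩
        intro z hzA hzb
        have h4 := hzb v
        unfold bd at h4
        rw [sum_eq_single e] at h4
        · rw [inc_of_joins hje] at h4
          simp only [if_true, if_neg (fun h' : a = v => hva h'.symm), add_zero, mul_one] at h4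
          exact h4
        · intro g _ hge
          by_cases hgA : g ∈ A
          · have hgS : g ∉ star ends A v := by
              rw [he, mem_singleton]; exact hge
            have hgn : ¬ ((ends g).1 = v ∨ (ends g).2 = v) := by
              intro hh
              exact hgS (mem_filter.2 ⟨hgA, hh⟩)
            rw [not_or] at hgn
            have : inc ends g v = 0 := by
              unfold inc
              rw [if_neg hgn.1, if_neg hgn.2, add_zero]
            rw [this, mul_zero]
          · have : z g = 0 := by
              by_contra hne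
              exact hgA (hzA ((mem_supp z g).2 hne))
            rw [this, zero_mul]
        · intro h5
          exact absurd (mem_univ e) h5
      · -- degree two
        obtain ⟨e, f, hef, hef2⟩ := card_eq_two.1 hc
        have heS : e ∈ star ends A v := by rw [hef2]; simp
        have hfS : f ∈ star ends A v := by rw [hef2]; simp
        obtain ⟨heA, a, hva, hje⟩ := hjoin e heS
        obtain ⟨hfA, b, hvb, hjf⟩ := hjoin f hfS
        have hstar : ∀ g ∈ A, g ≠ e → g ≠ f → (ends g).1 ≠ v ∧ (ends g).2 ≠ v := by
          intro g hgA hge hgf
          have hgS : g ∉ star ends A v := by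
            rw [hef2, mem_insert, mem_singleton, not_or]
            exact ⟨hge, hgf⟩
          have hgn : ¬ ((ends g).1 = v ∨ (ends g).2 = v) := by
            intro hh
            exact hgS (mem_filter.2 ⟨hgA, hh⟩)
          rw [not_or] at hgn
          exact hgn
        obtain ⟨B, hB⟩ := ih (A.erase f) (newEnds ends e a b) (newBag bag v a)
          (Function.update w e (w e + w f))
          (by rw [card_erase_of_mem hfA]; omega)
          (rtd_suppress h heA hfA hef hje hjf hva hvb hstar) (by
            intro g
            by_cases hge : g = e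
            · subst hge
              rw [Function.update_self]
              exact add_nonneg (hw _) (hw _)
            · rw [Function.update_of_ne hge]
              exact hw g)
        exact ⟨B.image (ext e f), good_suppress hw heA hfA hef hje hjf hva hvb hstar hB⟩

end BNTW
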