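import Pool.Agent.Helper18.BN.Suppress

/-!
From a tree decomposition indexed by a tree to a rooted one.
-/

namespace BNTW

open Finset SimpleGraph

variable {V E T : Type*} [DecidableEq V] [Fintype T]

theorem exists_rtd {H : SimpleGraph T} (hH : H.IsTree) (bag : T → Finset V) (k : ℕ)
    (hcard : ∀ t, (bag t).card ≤ k + 1)
    (hconn : ∀ v, (H.induce {t | v ∈ bag t}).Preconnected)
    (ends : E → V × V) (A : Finset E)
    (hcov : ∀ e ∈ A, ∃ t, (ends e).1 ∈ bag t ∧ (ends e).2 ∈ bag t) :
    ∃ (p : T → T) (d : T → ℕ) (root : T), IsRTD p d root bag ends A k := by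
  classical
  obtain ⟨root⟩ := hH.connected.nonempty
  have hq : ∀ t, ∃ q : H.Walk root t, q.IsPath ∧ q.length = H.dist root t := fun t =>
    (hH.connected root t).exists_path_of_dist
  choose q hqp hql using hq
  set p : T → T := fun t => (q t).penultimate with hp
  have hroot : p root = root := by
    have h0 : (q root).length = 0 := by rw [hql root]; simp
    have h1 : (q root).penultimate = (q root).getVert 0 := by
      unfold Walk.penultimate
      rw [h0]
    simp only [hp]
    rw [h1, Walk.getVert_zero]
  have hrank : ∀ t, t ≠ root → H.dist root (p t) < H.dist root t := by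
    intro t ht
    have hn : ¬ (q t).Nil := by
      intro hnil
      exact ht hnil.eq.symm
    have h1 := dist_le (q t).dropLast
    have h2 := Walk.length_dropLast_add_one hn
    have h3 := hql t
    have h4 : H.dist root (p t) ≤ (q t).dropLast.length := h1
    omega
  have hadj : ∀ x y, H.Adj x y → p x = y ∨ p y = x := by
    intro x y hxy
    by_cases h : y ∈ (q x).support
    · left
      exact (hH.isAcyclic.eq_penultimate_of_adj_end (hqp x) hxy h).symm
    · right
      have h1 := hH.isAcyclic.mem_support_of_ne_mem_support_of_adj_of_isPath (hqp y) (hqp x)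
        hxy.symm h
      exact (hH.isAcyclic.eq_penultimate_of_adj_end (hqp y) hxy.symm h1).symm
  refine ⟨p, fun t => H.dist root t, root, hroot, hrank, hcard, hcov, ?_⟩
  intro v t hvt hvp t' hvt'
  -- walk inside the bags containing `v`
  have key : ∀ (a b : {t | v ∈ bag t}) (W : (H.induce {t | v ∈ bag t}).Walk a b),
      Desc p t a.1 → Desc p t b.1 := by
    intro a b W
    induction W with
    | nil => exact fun h => h
    | @cons a c b hac _ ih =>
      intro hda
      apply ih
      have hac' : H.Adj a.1 c.1 := hac
      rcases hadj _ _ hac' with h | h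
      · obtain ⟨n, hn⟩ := hda
        cases n with
        | zero =>
          exfalso
          have hat : a.1 = t := hn
          apply hvp
          rw [← hat, h]
          exact c.2
        | succ n =>
          rw [Function.iterate_succ_apply, h] at hn
          exact ⟨n, hn⟩
      · obtain ⟨n, hn⟩ := hda
        exact ⟨n + 1, by rw [Function.iterate_succ_apply, h]; exact hn⟩
  obtain ⟨W⟩ := hconn v ⟨t, hvt⟩ ⟨t', hvt'⟩
  exact key _ _ W (Desc.refl p t)

end BNTW
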